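import Mathlib
import Pool.Agent.TH202.Ex
import Pool.Agent.TH202.Cen
import Pool.Agent.TH126.C8_OVER
import Pool.Agent.TH152.C8_EXACT

/-!
Job 505 (helper202): classification of the prime divisors on the model `X` and their canonical
orders.
-/

set_option autoImplicit false

namespace Pool.Agent.TH796.C8_XM2
open Pool.Agent.H436R3.Fol Pool.Agent.TH202 MvPolynomial

variable {K : Type} [Field K] [Algebra ℂ K]

theorem local_mono {S S' : Subalgebra ℂ K} {w : DVal K} (h : IsLocalRing' S w) (hS : S ≤ S')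
    (hr : ∀ f ∈ S', w.Reg f) : IsLocalRing' S' w := by
  refine ⟨hr, fun f hf => ?_⟩
  obtain ⟨a, b, ha, hb, h1, h2, h3⟩ := h.2 f hf
  exact ⟨a, b, hS ha, hS hb, h1, h2, h3⟩

theorem IC_reg {t : Fin 3 → K} {w : DVal K} (h : ∀ j, w.Reg (t j)) : ∀ f ∈ IC t, w.Reg f := by
  intro f hf
  refine reg_of_isIntegral w (S := Algebra.adjoin ℂ (Set.range t)) ?_ hf
  intro g hg
  refine Algebra.adjoin_induction (p := fun g _ => w.Reg g) ?_ ?_ ?_ ?_ hg
  · rintro _ ⟨j, rfl⟩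
    exact h j
  · exact fun c => w.reg_const c
  · exact fun f g _ _ hf hg => w.reg_add hf hg
  · exact fun f g _ _ hf hg => w.reg_mul hf hg

theorem integral_mono {S S' : Subalgebra ℂ K} (h : S ≤ S') {f : K} (hf : IsIntegral S f) :
    IsIntegral S' f := by
  obtain ⟨p, hp, h0⟩ := hf
  refine ⟨p.map (Subalgebra.inclusion h).toRingHom, hp.map _, ?_⟩
  rw [Polynomial.eval₂_map]
  exact h0

theorem R_le_IC (X : Model K) (i : Fin (X.n + 1)) (t : Fin 3 → K)
    (h : ∀ j, X.ξ j / X.ξ i ∈ Algebra.adjoin ℂ (Set.range t)) : X.R i ≤ IC t := by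
  intro f hf
  have h1 : X.A i ≤ Algebra.adjoin ℂ (Set.range t) := by
    refine Algebra.adjoin_le ?_
    rintro _ ⟨j, rfl⟩
    exact h j
  exact integral_mono h1 hf

/-- Multiplying by powers of `ξ_i / ξ_i'` moves the ring of one chart into the other one. -/
theorem A_move (X : Model K) {i i' : Fin (X.n + 1)} {f : K} (hf : f ∈ X.A i) :
    ∃ N : ℕ, ∀ n, N ≤ n → (X.ξ i / X.ξ i') ^ n * f ∈ X.A i' := by
  have hs : X.ξ i / X.ξ i' ∈ X.A i' := ratio_mem_A X i' i
  refine Algebra.adjoin_induction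
    (p := fun f _ => ∃ N : ℕ, ∀ n, N ≤ n → (X.ξ i / X.ξ i') ^ n * f ∈ X.A i') ?_ ?_ ?_ ?_ hf
  · rintro _ ⟨j, rfl⟩
    refine ⟨1, fun n hn => ?_⟩
    obtain ⟨m, rfl⟩ := Nat.exists_eq_add_of_le' hn
    have h1 : (X.ξ i / X.ξ i') ^ (m + 1) * (X.ξ j / X.ξ i) =
        (X.ξ i / X.ξ i') ^ m * (X.ξ j / X.ξ i') := by
      have h2 := X.ne i
      have h3 := X.ne i'
      have h4 : X.ξ i / X.ξ i' * (X.ξ j / X.ξ i) = X.ξ j / X.ξ i' := by field_simp
      rw [pow_succ, mul_assoc, h4]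
    change (X.ξ i / X.ξ i') ^ (m + 1) * (X.ξ j / X.ξ i) ∈ X.A i'
    rw [h1]
    exact mul_mem (pow_mem hs _) (ratio_mem_A X i' j)
  · intro c
    exact ⟨0, fun n _ => mul_mem (pow_mem hs _) ((X.A i').algebraMap_mem c)⟩
  · rintro f g _ _ ⟨N, hN⟩ ⟨M, hM⟩
    refine ⟨max N M, fun n hn => ?_⟩
    rw [mul_add]
    exact add_mem (hN n (le_trans (le_max_left _ _) hn)) (hM n (le_trans (le_max_right _ _) hn))
  · rintro f g _ _ ⟨N, hN⟩ ⟨M, hM⟩
    refine ⟨N + M, fun n hn => ?_⟩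
    obtain ⟨m, rfl⟩ := Nat.exists_eq_add_of_le hn
    have h1 : (X.ξ i / X.ξ i') ^ (N + M + m) * (f * g) =
        ((X.ξ i / X.ξ i') ^ N * f) * ((X.ξ i / X.ξ i') ^ (M + m) * g) := by ring
    rw [h1]
    exact mul_mem (hN N le_rfl) (hM _ (Nat.le_add_right _ _))

theorem R_move (X : Model K) {i i' : Fin (X.n + 1)} {f : K} (hf : f ∈ X.R i) :
    ∃ N : ℕ, ∀ n, N ≤ n → (X.ξ i / X.ξ i') ^ n * f ∈ X.R i' := by
  have hs : X.ξ i / X.ξ i' ∈ X.R i' := ratio_mem_R X i' i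
  have hf' : IsIntegral (X.A i) f := hf
  obtain ⟨p, hp, h0⟩ := hf'
  set q : Polynomial K := p.map (algebraMap (X.A i) K) with hq
  have hqm : q.Monic := hp.map _
  have hq0 : q.eval f = 0 := by
    rw [hq, Polynomial.eval_map]
    exact h0
  have hqc : ∀ j, ∃ N : ℕ, ∀ n, N ≤ n → (X.ξ i / X.ξ i') ^ n * q.coeff j ∈ X.A i' := by
    intro j
    apply A_move
    rw [hq, Polynomial.coeff_map]
    exact (p.coeff j).2
  choose N hN using hqc
  set M := ((Finset.range (q.natDegree + 1)).sup N) + 1 with hM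
  have key : (X.ξ i / X.ξ i') ^ M * f ∈ X.R i' := by
    refine mem_R_of_root (q.scaleRoots ((X.ξ i / X.ξ i') ^ M))
      (by rw [Polynomial.monic_scaleRoots_iff]; exact hqm) (fun j => ?_) ?_
    · rw [Polynomial.coeff_scaleRoots]
      by_cases hj0 : q.coeff j = 0
      · rw [hj0, zero_mul]
        exact zero_mem _
      have hj2 : j ≤ q.natDegree := Polynomial.le_natDegree_of_ne_zero hj0
      rcases hj2.eq_or_lt with rfl | hj3
      · rw [Nat.sub_self, pow_zero, mul_one, hqm.coeff_natDegree]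
        exact one_mem _
      · obtain ⟨k, hk⟩ := Nat.exists_eq_add_of_lt hj3
        have h1 : q.natDegree - j = k + 1 := by omega
        have h2 : N j ≤ M := by
          have : N j ≤ (Finset.range (q.natDegree + 1)).sup N :=
            Finset.le_sup (f := N) (Finset.mem_range.2 (by omega))
          omega
        rw [h1, pow_succ, mul_comm, mul_assoc]
        exact mul_mem (pow_mem (pow_mem hs _) _) (A_le_R X i' (hN j M h2))
    · rw [Polynomial.scaleRoots_eval_mul, hq0, mul_zero]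
  refine ⟨M, fun n hn => ?_⟩
  obtain ⟨m, rfl⟩ := Nat.exists_eq_add_of_le' hn
  rw [pow_add, mul_assoc]
  exact mul_mem (pow_mem hs _) key

theorem ord_min (X : Model K) {w : DVal K} {i : Fin (X.n + 1)} (h : IsLocalRing' (X.R i) w) :
    ∀ j, w.ord (X.ξ i) ≤ w.ord (X.ξ j) := by
  intro j
  have h1 := (h.1 _ (ratio_mem_R X i j)).resolve_left (div_ne_zero (X.ne j) (X.ne i))
  rw [w.ord_div (X.ne j) (X.ne i)] at h1
  omega

theorem R_reg (X : Model K) {w : DVal K} {i : Fin (X.n + 1)}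
    (h : ∀ j, w.ord (X.ξ i) ≤ w.ord (X.ξ j)) : ∀ f ∈ X.R i, w.Reg f := by
  intro f hf
  refine reg_of_isIntegral w (S := X.A i) ?_ hf
  intro g hg
  refine Algebra.adjoin_induction (p := fun g _ => w.Reg g) ?_ ?_ ?_ ?_ hg
  · rintro _ ⟨j, rfl⟩
    right
    change 0 ≤ w.ord (X.ξ j / X.ξ i)
    rw [w.ord_div (X.ne j) (X.ne i)]
    have := h j
    omega
  · exact fun c => w.reg_const c
  · exact fun f g _ _ hf hg => w.reg_add hf hg
  · exact fun f g _ _ hf hg => w.reg_mul hf hg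

theorem move (X : Model K) {w : DVal K} {i i' : Fin (X.n + 1)} (h : IsLocalRing' (X.R i) w)
    (hi : w.ord (X.ξ i') ≤ w.ord (X.ξ i)) : IsLocalRing' (X.R i') w := by
  have h1 := ord_min X h
  refine ⟨R_reg X fun j => hi.trans (h1 j), fun f hf => ?_⟩
  obtain ⟨a, b, ha, hb, hb0, hb1, hab⟩ := h.2 f hf
  obtain ⟨N, hN⟩ := R_move X (i' := i') ha
  obtain ⟨M, hM⟩ := R_move X (i' := i') hb
  have hs0 : X.ξ i / X.ξ i' ≠ 0 := div_ne_zero (X.ne i) (X.ne i')
  refine ⟨_, _, hN (max N M) (le_max_left _ _), hM (max N M) (le_max_right _ _),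
    mul_ne_zero (pow_ne_zero _ hs0) hb0, ?_, ?_⟩
  · rw [w.map_mul _ _ (pow_ne_zero _ hs0) hb0, w.ord_pow hs0, w.ord_div (X.ne i) (X.ne i'), hb1]
    have := h1 i'
    have h2 : w.ord (X.ξ i) - w.ord (X.ξ i') = 0 := by omega
    rw [h2]
    ring
  · rw [← hab]
    ring

/-- The exponents of the homogeneous coordinates. -/
def E : Fin 10 → Fin 3 → ℕ :=
  ![![1, 0, 0], ![0, 1, 0], ![0, 0, 1], ![2, 0, 0], ![0, 2, 0], ![0, 0, 2], ![2, 2, 0], ![0, 2, 2],
    ![2, 0, 2], ![2, 2, 2]]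

theorem xi_eq (d : Dat K) (j : Fin 10) : xi d j = d.a ^ E j 0 * d.b ^ E j 1 * d.c ^ E j 2 := by
  fin_cases j <;> simp [xi, E]

theorem ord_xi (d : Dat K) (w : DVal K) (j : Fin 10) :
    w.ord (xi d j) = E j 0 * w.ord d.a + E j 1 * w.ord d.b + E j 2 * w.ord d.c := by
  rw [xi_eq, w.map_mul _ _ (mul_ne_zero (pow_ne_zero _ d.a_ne) (pow_ne_zero _ d.b_ne))
    (pow_ne_zero _ d.c_ne), w.map_mul _ _ (pow_ne_zero _ d.a_ne) (pow_ne_zero _ d.b_ne),
    w.ord_pow d.a_ne, w.ord_pow d.b_ne, w.ord_pow d.c_ne]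

theorem E_le (j : Fin 10) (k : Fin 3) : E j k ≤ 2 := by
  revert j k; decide

theorem E_pos (j : Fin 10) : 1 ≤ E j 0 + E j 1 + E j 2 := by
  revert j; decide

theorem aeval_ne (d : Dat K) {q : MvPolynomial (Fin 3) ℂ} (hq : q ≠ 0) :
    aeval ![d.a, d.b, d.c] q ≠ 0 := by
  intro h
  apply hq
  apply d.ind
  rw [h, map_zero]

theorem one_sub_a (d : Dat K) : 1 - d.a ^ 2 ≠ 0 := by
  have h := aeval_ne d (q := 1 - X 0 ^ 2) (by
    intro h
    have h2 := congrArg (MvPolynomial.eval (fun _ => (0 : ℂ))) h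
    simp at h2)
  simpa using h

section alg

open scoped IntermediateField.algebraAdjoinAdjoin

theorem alg_of (d : Dat K) (t : Fin 3 → K)
    (ha : d.a ∈ IntermediateField.adjoin ℂ (Set.range t))
    (hb : d.b ∈ IntermediateField.adjoin ℂ (Set.range t))
    (hc : d.c ∈ IntermediateField.adjoin ℂ (Set.range t)) :
    ∀ f : K, IsAlgebraic (Algebra.adjoin ℂ (Set.range t)) f := by
  intro f
  set F := IntermediateField.adjoin ℂ (Set.range t) with hF
  have hle : IntermediateField.adjoin ℂ ({d.a, d.b, d.c} : Set K) ≤ F := by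
    rw [IntermediateField.adjoin_le_iff]
    rintro x (rfl | rfl | rfl)
    · exact ha
    · exact hb
    · exact hc
  have hint : ∀ g ∈ F, IsIntegral F g := fun g hg =>
    isIntegral_algebraMap (R := F) (x := (⟨g, hg⟩ : F))
  have hr : IsIntegral F d.r := by
    have h3 : d.r ^ 3 = d.a ^ 2 * (1 - d.b ^ 2) / (d.b ^ 2 * (1 - d.a ^ 2)) := by
      rw [eq_div_iff (mul_ne_zero (pow_ne_zero _ d.b_ne) (one_sub_a d))]
      exact d.r3
    have h4 : d.r ^ 3 ∈ F := by
      rw [h3]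
      exact div_mem (mul_mem (pow_mem ha _) (sub_mem (one_mem _) (pow_mem hb _)))
        (mul_mem (pow_mem hb _) (sub_mem (one_mem _) (pow_mem ha _)))
    exact IsIntegral.of_pow (n := 3) (by norm_num) (hint _ h4)
  have hf : IsIntegral F f := by
    obtain ⟨g0, h0, g1, h1, g2, h2, rfl⟩ := d.gen f
    exact ((hint _ (hle h0)).add ((hint _ (hle h1)).mul hr)).add
      ((hint _ (hle h2)).mul (hr.pow 2))
  exact (IsFractionRing.isAlgebraic_iff (Algebra.adjoin ℂ (Set.range t)) F K).2 hf.isAlgebraic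

end alg

theorem ind_of (d : Dat K) (t : Fin 3 → K)
    (ha : d.a ∈ IntermediateField.adjoin ℂ (Set.range t))
    (hb : d.b ∈ IntermediateField.adjoin ℂ (Set.range t))
    (hc : d.c ∈ IntermediateField.adjoin ℂ (Set.range t)) :
    AlgebraicIndependent ℂ t := by
  have h1 := alg_of d t ha hb hc
  have : Algebra.IsAlgebraic (Algebra.adjoin ℂ (Set.range t)) K := ⟨h1⟩
  have h2 : Cardinal.mk (Fin 3) ≤ Algebra.trdeg ℂ K := d.ind.cardinalMk_le_trdeg
  exact (Algebra.IsAlgebraic.isTranscendenceBasis_of_le_trdeg_of_finite ℂ t h2).1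

theorem part_mem (S : Subalgebra ℂ K) {x : K} (hx : x ≠ 0) {p e : ℕ} (hp : p ≤ 2)
    (he : e = 0 ∨ e = 2) (hS : (if e = 2 then x⁻¹ else x) ∈ S) : x ^ p / x ^ e ∈ S := by
  rcases he with rfl | rfl
  · simp only [pow_zero, div_one]
    exact pow_mem (by simpa using hS) _
  · have h1 : x⁻¹ ∈ S := by simpa using hS
    have h2 : x ^ p / x ^ 2 = (x⁻¹) ^ (2 - p) := by
      obtain ⟨k, hk⟩ := Nat.exists_eq_add_of_le hp
      have h3 : 2 - p = k := by omega
      have h5 : x ^ k ≠ 0 := pow_ne_zero _ hx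
      have h6 : x ^ p ≠ 0 := pow_ne_zero _ hx
      rw [h3, hk, inv_pow, pow_add, div_eq_iff (mul_ne_zero h6 h5)]
      rw [mul_comm (x ^ p) (x ^ k), ← mul_assoc, inv_mul_cancel₀ h5, one_mul]
    rw [h2]
    exact pow_mem h1 _

/-- The first alternative. -/
def Alt1 (d : Dat K) (w : DVal K) : Prop :=
  ∃ ta tb tc : K, (ta = d.a ∨ ta = d.a⁻¹) ∧ (tb = d.b ∨ tb = d.b⁻¹) ∧ (tc = d.c ∨ tc = d.c⁻¹) ∧
      IsLocalRing' (IC ![ta, tb, tc]) w

theorem reg_part {w : DVal K} {x : K} (hx : x ≠ 0) {e : ℕ}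
    (h : (e = 2 → w.ord x ≤ 0) ∧ (e ≠ 2 → 0 ≤ w.ord x)) :
    w.Reg (if e = 2 then x⁻¹ else x) := by
  right
  split_ifs with h1
  · rw [w.ord_inv hx]
    have := h.1 h1
    omega
  · exact h.2 h1

theorem alt1 (d : Dat K) (h : XiAlg d) {w : DVal K} (i' : Fin 10)
    (hE : ∀ k, E i' k = 0 ∨ E i' k = 2) (hi : IsLocalRing' ((Xd d h).R i') w) : Alt1 d w := by
  have hmin : ∀ j : Fin 10, w.ord (xi d i') ≤ w.ord (xi d j) := ord_min (Xd d h) hi
  simp only [ord_xi] at hmin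
  have hreg : ((E i' 0 = 2 → w.ord d.a ≤ 0) ∧ (E i' 0 ≠ 2 → 0 ≤ w.ord d.a)) ∧
      ((E i' 1 = 2 → w.ord d.b ≤ 0) ∧ (E i' 1 ≠ 2 → 0 ≤ w.ord d.b)) ∧
      ((E i' 2 = 2 → w.ord d.c ≤ 0) ∧ (E i' 2 ≠ 2 → 0 ≤ w.ord d.c)) := by
    have h0 := hmin 0
    have h1 := hmin 1
    have h2 := hmin 2
    have h3 := hmin 3
    have h4 := hmin 4
    have h5 := hmin 5
    have h6 := hmin 6
    have h7 := hmin 7
    have h8 := hmin 8
    have h9 := hmin 9
    have g0 := hE 0
    have g1 := hE 1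
    have g2 := hE 2
    clear hmin hE hi
    fin_cases i' <;> simp [E] at g0 g1 g2 <;>
      simp [E] at h0 h1 h2 h3 h4 h5 h6 h7 h8 h9 ⊢ <;> omega
  set ta : K := if E i' 0 = 2 then d.a⁻¹ else d.a with hta
  set tb : K := if E i' 1 = 2 then d.b⁻¹ else d.b with htb
  set tc : K := if E i' 2 = 2 then d.c⁻¹ else d.c with htc
  have m0 : ta ∈ Algebra.adjoin ℂ (Set.range ![ta, tb, tc]) := Algebra.subset_adjoin ⟨0, rfl⟩
  have m1 : tb ∈ Algebra.adjoin ℂ (Set.range ![ta, tb, tc]) := Algebra.subset_adjoin ⟨1, rfl⟩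
  have m2 : tc ∈ Algebra.adjoin ℂ (Set.range ![ta, tb, tc]) := Algebra.subset_adjoin ⟨2, rfl⟩
  refine ⟨ta, tb, tc, ?_, ?_, ?_, ?_⟩
  · rw [hta]; split_ifs
    · right; rfl
    · left; rfl
  · rw [htb]; split_ifs
    · right; rfl
    · left; rfl
  · rw [htc]; split_ifs
    · right; rfl
    · left; rfl
  · have key : ∀ j : Fin 10, xi d j / xi d i' ∈ Algebra.adjoin ℂ (Set.range ![ta, tb, tc]) := by
      intro j
      rw [xi_eq, xi_eq]
      have h1 : d.a ^ E j 0 * d.b ^ E j 1 * d.c ^ E j 2 / (d.a ^ E i' 0 * d.b ^ E i' 1 * d.c ^ E i' 2)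
          = d.a ^ E j 0 / d.a ^ E i' 0 * (d.b ^ E j 1 / d.b ^ E i' 1) *
            (d.c ^ E j 2 / d.c ^ E i' 2) := by
        rw [div_mul_div_comm, div_mul_div_comm]
      rw [h1]
      exact mul_mem (mul_mem (part_mem _ d.a_ne (E_le _ _) (hE 0) m0)
        (part_mem _ d.b_ne (E_le _ _) (hE 1) m1)) (part_mem _ d.c_ne (E_le _ _) (hE 2) m2)
    refine local_mono hi (R_le_IC (Xd d h) i' _ fun j => key j) (IC_reg fun j => ?_)
    fin_cases j
    · exact reg_part d.a_ne hreg.1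
    · exact reg_part d.b_ne hreg.2.1
    · exact reg_part d.c_ne hreg.2.2

omit [Algebra ℂ K] in
theorem ratio_eq {x y z : K} (hx : x ≠ 0) {p q r : ℕ} (h : 1 ≤ p + q + r) :
    x ^ p * y ^ q * z ^ r / x = x ^ (p + q + r - 1) * (y / x) ^ q * (z / x) ^ r := by
  obtain ⟨k, hk⟩ := Nat.exists_eq_add_of_le' h
  have h1 : p + q + r - 1 = k := by omega
  rw [h1, div_pow, div_pow, div_eq_iff hx]
  have h2 : x ^ k * (y ^ q / x ^ q) * (z ^ r / x ^ r) * x = x ^ (k + 1) * (y ^ q * z ^ r) /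
      (x ^ q * x ^ r) := by
    rw [pow_succ]
    field_simp
  rw [h2, ← hk, pow_add, pow_add, eq_div_iff (mul_ne_zero (pow_ne_zero _ hx) (pow_ne_zero _ hx))]
  ring

theorem chart {d : Dat K} (h : XiAlg d) {w : DVal K} (i : Fin 10) (x y z : K) (hx : x ≠ 0)
    (p q r : Fin 10 → ℕ) (hpqr : ∀ j, 1 ≤ p j + q j + r j) (hi : xi d i = x)
    (hj : ∀ j, xi d j = x ^ p j * y ^ q j * z ^ r j)
    (hxr : w.Reg x) (hyr : w.Reg (y / x)) (hzr : w.Reg (z / x))
    (hw : IsLocalRing' ((Xd d h).R i) w) : IsLocalRing' (IC ![x, y / x, z / x]) w := by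
  have m0 : x ∈ Algebra.adjoin ℂ (Set.range ![x, y / x, z / x]) :=
    Algebra.subset_adjoin ⟨0, rfl⟩
  have m1 : y / x ∈ Algebra.adjoin ℂ (Set.range ![x, y / x, z / x]) :=
    Algebra.subset_adjoin ⟨1, rfl⟩
  have m2 : z / x ∈ Algebra.adjoin ℂ (Set.range ![x, y / x, z / x]) :=
    Algebra.subset_adjoin ⟨2, rfl⟩
  have key : ∀ j : Fin 10, xi d j / xi d i ∈ Algebra.adjoin ℂ (Set.range ![x, y / x, z / x]) := by
    intro j
    rw [hi, hj, ratio_eq hx (hpqr j)]
    exact mul_mem (mul_mem (pow_mem m0 _) (pow_mem m1 _)) (pow_mem m2 _)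
  refine local_mono hw (R_le_IC (Xd d h) i _ fun j => key j) (IC_reg fun j => ?_)
  fin_cases j
  · exact hxr
  · exact hyr
  · exact hzr

theorem two_primes {π : MvPolynomial (Fin 3) ℂ} (hπ : Prime π) {i j : Fin 3} (hi : π ∣ X i)
    (hj : π ∣ X j) : i = j := by
  have h1 : Associated π (X i) :=
    (hπ.irreducible.dvd_irreducible_iff_associated (MvPolynomial.X_prime).irreducible).1 hi
  have h2 : Associated π (X j) :=
    (hπ.irreducible.dvd_irreducible_iff_associated (MvPolynomial.X_prime).irreducible).1 hj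
  exact MvPolynomial.X_dvd_X.1 (h1.symm.trans h2).dvd

theorem reg_div {w : DVal K} {x y : K} (hx : x ≠ 0) (hy : y ≠ 0) (h : w.ord x ≤ w.ord y) :
    w.Reg (y / x) := by
  right
  rw [w.ord_div hy hx]
  omega

theorem mem_field (t : Fin 3 → K) (j : Fin 3) : t j ∈ IntermediateField.adjoin ℂ (Set.range t) :=
  IntermediateField.subset_adjoin _ _ ⟨j, rfl⟩

/-- The second alternative. -/
def Alt2 (d : Dat K) (w : DVal K) : Prop :=
  IsLocalRing' (IC ![d.a, d.b / d.a, d.c / d.a]) w ∧ 0 < w.ord d.a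

theorem alt2 (d : Dat K) (h : XiAlg d) {w : DVal K} (hi : IsLocalRing' ((Xd d h).R (0 : Fin 10)) w)
    (ha : 0 < w.ord d.a) : Alt2 d w := by
  have hmin : ∀ j : Fin 10, w.ord (xi d 0) ≤ w.ord (xi d j) := ord_min (Xd d h) hi
  have h1 := hmin 1
  have h2 := hmin 2
  change w.ord d.a ≤ w.ord d.b at h1
  change w.ord d.a ≤ w.ord d.c at h2
  refine ⟨?_, ha⟩
  exact chart h 0 d.a d.b d.c d.a_ne (fun j => E j 0) (fun j => E j 1) (fun j => E j 2) E_pos rfl
    (xi_eq d) (Or.inr ha.le) (reg_div d.a_ne d.b_ne h1) (reg_div d.a_ne d.c_ne h2) hi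

theorem chart_one (d : Dat K) (h : XiAlg d) {w : DVal K}
    (hi : IsLocalRing' ((Xd d h).R (1 : Fin 10)) w) (hb : 0 < w.ord d.b) :
    w.ord d.a = w.ord d.b := by
  have hmin : ∀ j : Fin 10, w.ord (xi d 1) ≤ w.ord (xi d j) := ord_min (Xd d h) hi
  have h1 := hmin 0
  have h2 := hmin 2
  change w.ord d.b ≤ w.ord d.a at h1
  change w.ord d.b ≤ w.ord d.c at h2
  by_contra hne
  have hlt : 0 < w.ord (d.a / d.b) := by
    rw [w.ord_div d.a_ne d.b_ne]
    omega
  have hl : IsLocalRing' (IC ![d.b, d.a / d.b, d.c / d.b]) w := by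
    refine chart h 1 d.b d.a d.c d.b_ne (fun j => E j 1) (fun j => E j 0) (fun j => E j 2)
      (fun j => ?_) rfl (fun j => ?_) (Or.inr hb.le) (reg_div d.b_ne d.a_ne h1)
      (reg_div d.b_ne d.c_ne h2) hi
    · have := E_pos j
      omega
    · rw [xi_eq]
      ring
  set t : Fin 3 → K := ![d.b, d.a / d.b, d.c / d.b] with ht
  have mb : d.b ∈ IntermediateField.adjoin ℂ (Set.range t) := mem_field t 0
  have ma : d.a ∈ IntermediateField.adjoin ℂ (Set.range t) := by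
    have h3 : d.a = t 1 * t 0 := by
      rw [ht]
      change d.a = d.a / d.b * d.b
      rw [div_mul_cancel₀ _ d.b_ne]
    rw [h3]
    exact mul_mem (mem_field t 1) (mem_field t 0)
  have mc : d.c ∈ IntermediateField.adjoin ℂ (Set.range t) := by
    have h3 : d.c = t 2 * t 0 := by
      rw [ht]
      change d.c = d.c / d.b * d.b
      rw [div_mul_cancel₀ _ d.b_ne]
    rw [h3]
    exact mul_mem (mem_field t 2) (mem_field t 0)
  obtain ⟨π, hπ, hover⟩ := TH126.C8_OVER.prime_over t (ind_of d t ma mb mc) (alg_of d t ma mb mc)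
    w hl
  have k0 : π ∣ X 0 := by
    rw [← hover, aeval_X]
    exact Or.inr hb
  have k1 : π ∣ X 1 := by
    rw [← hover, aeval_X]
    exact Or.inr hlt
  exact absurd (two_primes hπ k0 k1) (by decide)

theorem chart_two (d : Dat K) (h : XiAlg d) {w : DVal K}
    (hi : IsLocalRing' ((Xd d h).R (2 : Fin 10)) w) (hc : 0 < w.ord d.c) :
    w.ord d.a = w.ord d.c := by
  have hmin : ∀ j : Fin 10, w.ord (xi d 2) ≤ w.ord (xi d j) := ord_min (Xd d h) hi
  have h1 := hmin 0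
  have h2 := hmin 1
  change w.ord d.c ≤ w.ord d.a at h1
  change w.ord d.c ≤ w.ord d.b at h2
  by_contra hne
  have hlt : 0 < w.ord (d.a / d.c) := by
    rw [w.ord_div d.a_ne d.c_ne]
    omega
  have hl : IsLocalRing' (IC ![d.c, d.a / d.c, d.b / d.c]) w := by
    refine chart h 2 d.c d.a d.b d.c_ne (fun j => E j 2) (fun j => E j 0) (fun j => E j 1)
      (fun j => ?_) rfl (fun j => ?_) (Or.inr hc.le) (reg_div d.c_ne d.a_ne h1)
      (reg_div d.c_ne d.b_ne h2) hi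
    · have := E_pos j
      omega
    · rw [xi_eq]
      ring
  set t : Fin 3 → K := ![d.c, d.a / d.c, d.b / d.c] with ht
  have mc : d.c ∈ IntermediateField.adjoin ℂ (Set.range t) := mem_field t 0
  have ma : d.a ∈ IntermediateField.adjoin ℂ (Set.range t) := by
    have h3 : d.a = t 1 * t 0 := by
      rw [ht]
      change d.a = d.a / d.c * d.c
      rw [div_mul_cancel₀ _ d.c_ne]
    rw [h3]
    exact mul_mem (mem_field t 1) (mem_field t 0)
  have mb : d.b ∈ IntermediateField.adjoin ℂ (Set.range t) := by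
    have h3 : d.b = t 2 * t 0 := by
      rw [ht]
      change d.b = d.b / d.c * d.c
      rw [div_mul_cancel₀ _ d.c_ne]
    rw [h3]
    exact mul_mem (mem_field t 2) (mem_field t 0)
  obtain ⟨π, hπ, hover⟩ := TH126.C8_OVER.prime_over t (ind_of d t ma mb mc) (alg_of d t ma mb mc)
    w hl
  have k0 : π ∣ X 0 := by
    rw [← hover, aeval_X]
    exact Or.inr hc
  have k1 : π ∣ X 1 := by
    rw [← hover, aeval_X]
    exact Or.inr hlt
  exact absurd (two_primes hπ k0 k1) (by decide)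

theorem prime_cases_aux (d : Dat K) (h : XiAlg d) (w : DVal K) (i : Fin 10)
    (hi : IsLocalRing' ((Xd d h).R i) w) : Alt1 d w ∨ Alt2 d w := by
  have hmin : ∀ j : Fin 10, w.ord (xi d i) ≤ w.ord (xi d j) := ord_min (Xd d h) hi
  have mv : ∀ i' : Fin 10, w.ord (xi d i') ≤ w.ord (xi d i) → IsLocalRing' ((Xd d h).R i') w :=
    fun i' hi' => move (Xd d h) hi hi'
  by_cases hz : ∃ i' : Fin 10, (∀ k, E i' k = 0 ∨ E i' k = 2) ∧ w.ord (xi d i') ≤ w.ord (xi d i)
  · obtain ⟨i', h1, h2⟩ := hz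
    exact Or.inl (alt1 d h i' h1 (mv i' h2))
  · right
    push Not at hz
    have h3 := hz 3 (by decide)
    have h4 := hz 4 (by decide)
    have h5 := hz 5 (by decide)
    have h6 := hz 6 (by decide)
    have h7 := hz 7 (by decide)
    have h8 := hz 8 (by decide)
    have h9 := hz 9 (by decide)
    have g0 := hmin 0
    have g1 := hmin 1
    have g2 := hmin 2
    have e0 : w.ord (xi d 0) = w.ord d.a := rfl
    have e1 : w.ord (xi d 1) = w.ord d.b := rfl
    have e2 : w.ord (xi d 2) = w.ord d.c := rfl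
    have hlt : 0 < w.ord (xi d i) ∧ (w.ord d.a = w.ord (xi d i) ∨ w.ord d.b = w.ord (xi d i) ∨
        w.ord d.c = w.ord (xi d i)) := by
      rw [ord_xi] at h3 h4 h5 h6 h7 h8 h9 g0 g1 g2
      rw [ord_xi] at h3 h4 h5 h6 h7 h8 h9 g0 g1 g2
      rw [ord_xi]
      clear hmin mv hz hi
      fin_cases i <;> simp [E] at h3 h4 h5 h6 h7 h8 h9 g0 g1 g2 ⊢ <;> omega
    obtain ⟨hpos, hor⟩ := hlt
    rcases hor with ha | hb | hc
    · exact alt2 d h (mv 0 (by omega)) (by omega)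
    · have k1 : IsLocalRing' ((Xd d h).R (1 : Fin 10)) w := mv 1 (by omega)
      have k2 := chart_one d h k1 (by omega)
      exact alt2 d h (mv 0 (by omega)) (by omega)
    · have k1 : IsLocalRing' ((Xd d h).R (2 : Fin 10)) w := mv 2 (by omega)
      have k2 := chart_two d h k1 (by omega)
      exact alt2 d h (mv 0 (by omega)) (by omega)

/-- The prime divisors on `X` are prime divisors on the normalization of `P^1 × P^1 × P^1` or the
exceptional divisor over the origin. -/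
theorem prime_cases (d : Dat K) (h : XiAlg d) (w : DVal K) (hw : IsPrimeOn (Xd d h) w) :
    (∃ ta tb tc : K, (ta = d.a ∨ ta = d.a⁻¹) ∧ (tb = d.b ∨ tb = d.b⁻¹) ∧ (tc = d.c ∨ tc = d.c⁻¹) ∧
      IsLocalRing' (IC ![ta, tb, tc]) w) ∨
    (IsLocalRing' (IC ![d.a, d.b / d.a, d.c / d.a]) w ∧ 0 < w.ord d.a) := by
  obtain ⟨i, hi⟩ := hw
  exact prime_cases_aux d h w i hi

/-- The statement of the first part of job EXACT. -/
def ExactOne (d : Dat K) (T : Foliation K 3) : Prop :=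
  ∀ (ta tb tc : K), (ta = d.a ∨ ta = d.a⁻¹) → (tb = d.b ∨ tb = d.b⁻¹) → (tc = d.c ∨ tc = d.c⁻¹) →
    ∀ w : DVal K, IsLocalRing' (IC ![ta, tb, tc]) w →
    (∃ π : MvPolynomial (Fin 3) ℂ, Prime π ∧ ∀ q, w.Pos (aeval ![ta, tb, tc] q) ↔ π ∣ q) →
    min (w.ord d.a) (min (w.ord d.b) (w.ord d.c)) ≤ 0 ∧
    ∃ n : ℤ, IsCanOrd T w n ∧
      (n : ℝ) = 2 / 3 * (w.ord ((1 - d.a ^ 2) / d.a ^ 2) : ℝ)
        + 2 / 3 * (w.ord ((1 - d.b ^ 2) / d.b ^ 2) : ℝ) + 2 * (w.ord d.a : ℝ) + 2 * (w.ord d.b : ℝ)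
        - 2 * ng (w.ord d.c)

/-- The statement of the second part of job EXACT. -/
def ExactTwo (d : Dat K) (T : Foliation K 3) : Prop :=
  ∀ w : DVal K, IsLocalRing' (IC ![d.a, d.b / d.a, d.c / d.a]) w → 0 < w.ord d.a →
    (∃ π : MvPolynomial (Fin 3) ℂ, Prime π ∧
      ∀ q, w.Pos (aeval ![d.a, d.b / d.a, d.c / d.a] q) ↔ π ∣ q) →
    w.ord d.a = 1 ∧ w.ord d.b = 1 ∧ w.ord d.c = 1 ∧ IsCanOrd T w 2

theorem ord_one_sub {w : DVal K} {x : K} (hx : x ≠ 0) (h : 0 < w.ord x) (h0 : 1 - x ^ 2 ≠ 0) :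
    w.ord ((1 - x ^ 2) / x ^ 2) = -(2 * w.ord x) := by
  have h1 : w.Pos (x ^ 2) := by
    right
    rw [w.ord_pow hx]
    push_cast
    omega
  have h2 : w.Reg (1 - x ^ 2) := by
    refine w.reg_sub w.reg_one ?_
    rcases h1 with h1 | h1
    · exact Or.inl h1
    · exact Or.inr h1.le
  have h3 : ¬ 0 < w.ord (1 - x ^ 2) := by
    intro h3
    have h4 : w.Pos ((1 - x ^ 2) + x ^ 2) := w.pos_add (Or.inr h3) h1
    rw [sub_add_cancel] at h4
    rcases h4 with h4 | h4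
    · exact one_ne_zero h4
    · rw [w.ord_one] at h4
      exact lt_irrefl _ h4
  have h5 := h2.resolve_left h0
  rw [w.ord_div h0 (pow_ne_zero _ hx), w.ord_pow hx]
  push_cast
  omega

theorem one_sub_b (d : Dat K) : 1 - d.b ^ 2 ≠ 0 := by
  have h := aeval_ne d (q := 1 - X 1 ^ 2) (by
    intro h
    have h2 := congrArg (MvPolynomial.eval (fun _ => (0 : ℂ))) h
    simp at h2)
  simpa using h

theorem not_dvd {q : MvPolynomial (Fin 2) ℂ} (hq : q ≠ 0) :
    ¬ (X 2 : MvPolynomial (Fin 3) ℂ) ∣ rename Fin.castSucc q := by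
  rintro ⟨g, hg⟩
  apply hq
  have h1 := congrArg (aeval (![X 0, X 1, 0] : Fin 3 → MvPolynomial (Fin 2) ℂ)) hg
  rw [map_mul, aeval_X, aeval_rename] at h1
  have h2 : (![X 0, X 1, 0] : Fin 3 → MvPolynomial (Fin 2) ℂ) ∘ Fin.castSucc = X := by
    funext i
    fin_cases i <;> rfl
  have h3 : (![X 0, X 1, 0] : Fin 3 → MvPolynomial (Fin 2) ℂ) 2 = 0 := rfl
  rw [h2, h3, zero_mul, aeval_X_left_apply] at h1
  exact h1

omit [Field K] [Algebra ℂ K] in
theorem comp_castSucc (x y z : K) : (![x, y, z] : Fin 3 → K) ∘ Fin.castSucc = ![x, y] := by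
  funext i
  fin_cases i <;> rfl

theorem adjoin_le_IC (t : Fin 3 → K) : Algebra.adjoin ℂ (Set.range t) ≤ IC t := fun f hf =>
  isIntegral_algebraMap (R := Algebra.adjoin ℂ (Set.range t))
    (x := (⟨f, hf⟩ : Algebra.adjoin ℂ (Set.range t)))

theorem aeval_mem_IC (t : Fin 3 → K) (q : MvPolynomial (Fin 3) ℂ) : aeval t q ∈ IC t := by
  apply adjoin_le_IC
  rw [Algebra.adjoin_range_eq_range_aeval]
  exact ⟨q, rfl⟩

theorem isS_of (d : Dat K) (w : DVal K) {ta tb tc : K} (ha : ta = d.a ∨ ta = d.a⁻¹)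
    (hb : tb = d.b ∨ tb = d.b⁻¹) (hc : tc = d.c ∨ tc = d.c⁻¹)
    (hl : IsLocalRing' (IC ![ta, tb, tc]) w) {π : MvPolynomial (Fin 3) ℂ} (hπ : Prime π)
    (hover : ∀ q, w.Pos (aeval ![ta, tb, tc] q) ↔ π ∣ q) (hcp : 0 < w.ord d.c) : IsS d w := by
  have htc0 : tc ≠ 0 := by
    rcases hc with rfl | rfl
    · exact d.c_ne
    · exact inv_ne_zero d.c_ne
  have htc : tc = d.c := by
    rcases hc with h | h
    · exact h
    · exfalso
      have h1 : w.Reg tc := hl.1 tc (by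
        have := aeval_mem_IC ![ta, tb, tc] (X 2)
        rw [aeval_X] at this
        exact this)
      have h2 := h1.resolve_left htc0
      rw [h, w.ord_inv d.c_ne] at h2
      omega
  have hX2 : π ∣ X 2 := by
    rw [← hover, aeval_X]
    right
    change 0 < w.ord tc
    rw [htc]
    exact hcp
  have hass : Associated π (X 2) :=
    (hπ.irreducible.dvd_irreducible_iff_associated (MvPolynomial.X_prime).irreducible).1 hX2
  have h0 : ∀ q : MvPolynomial (Fin 2) ℂ, q ≠ 0 →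
      aeval ![ta, tb] q ≠ 0 ∧ w.ord (aeval ![ta, tb] q) = 0 := by
    intro q hq
    have h1 : aeval ![ta, tb, tc] (rename Fin.castSucc q) = aeval ![ta, tb] q := by
      rw [aeval_rename, comp_castSucc]
    have h2 : ¬ w.Pos (aeval ![ta, tb] q) := by
      rw [← h1, hover]
      intro h3
      exact not_dvd hq (hass.symm.dvd.trans h3)
    have h3 : w.Reg (aeval ![ta, tb] q) := by
      rw [← h1]
      exact hl.1 _ (aeval_mem_IC _ _)
    have h4 : aeval ![ta, tb] q ≠ 0 := fun h => h2 (Or.inl h)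
    have h5 : ¬ 0 < w.ord (aeval ![ta, tb] q) := fun h => h2 (Or.inr h)
    have h6 := h3.resolve_left h4
    exact ⟨h4, by omega⟩
  refine ⟨fun q hq => ?_, hcp⟩
  have hne : aeval ![d.a, d.b] q ≠ 0 := by
    have h1 : aeval ![d.a, d.b, d.c] (rename Fin.castSucc q) = aeval ![d.a, d.b] q := by
      rw [aeval_rename, comp_castSucc]
    rw [← h1]
    apply aeval_ne
    intro h2
    apply hq
    exact rename_injective _ (Fin.castSucc_injective 2) (by rw [h2, map_zero])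
  have ma : d.a ∈ IntermediateField.adjoin ℂ (Set.range ![ta, tb]) := by
    have h1 : ta ∈ IntermediateField.adjoin ℂ (Set.range ![ta, tb]) :=
      IntermediateField.subset_adjoin _ _ ⟨0, rfl⟩
    rcases ha with h | h
    · rw [← h]; exact h1
    · rw [← inv_inv d.a, ← h]
      exact inv_mem h1
  have mb : d.b ∈ IntermediateField.adjoin ℂ (Set.range ![ta, tb]) := by
    have h1 : tb ∈ IntermediateField.adjoin ℂ (Set.range ![ta, tb]) :=
      IntermediateField.subset_adjoin _ _ ⟨1, rfl⟩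
    rcases hb with h | h
    · rw [← h]; exact h1
    · rw [← inv_inv d.b, ← h]
      exact inv_mem h1
  have hmem : aeval ![d.a, d.b] q ∈ IntermediateField.adjoin ℂ (Set.range ![ta, tb]) := by
    have h1 : aeval ![d.a, d.b] q ∈ Algebra.adjoin ℂ (Set.range ![d.a, d.b]) := by
      rw [Algebra.adjoin_range_eq_range_aeval]
      exact ⟨q, rfl⟩
    have h2 : Algebra.adjoin ℂ (Set.range ![d.a, d.b]) ≤
        (IntermediateField.adjoin ℂ (Set.range ![ta, tb])).toSubalgebra := by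
      refine Algebra.adjoin_le ?_
      rintro _ ⟨j, rfl⟩
      fin_cases j
      · exact ma
      · exact mb
    exact h2 h1
  rw [IntermediateField.mem_adjoin_range_iff] at hmem
  obtain ⟨r, s, hrs⟩ := hmem
  have hr : r ≠ 0 := by
    rintro rfl
    rw [map_zero, zero_div] at hrs
    exact hne hrs
  have hs : s ≠ 0 := by
    rintro rfl
    rw [map_zero, div_zero] at hrs
    exact hne hrs
  rw [hrs, w.ord_div (h0 r hr).1 (h0 s hs).1, (h0 r hr).2, (h0 s hs).2, sub_zero]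

theorem mem_field_a {ta : K} (t : Fin 3 → K) {j : Fin 3} (hj : t j = ta) {x : K}
    (hx : ta = x ∨ ta = x⁻¹) : x ∈ IntermediateField.adjoin ℂ (Set.range t) := by
  have h1 : ta ∈ IntermediateField.adjoin ℂ (Set.range t) := by
    rw [← hj]
    exact mem_field t j
  rcases hx with h | h
  · rw [← h]; exact h1
  · rw [← inv_inv x, ← h]
    exact inv_mem h1

theorem prime_X_of (d : Dat K) (h : XiAlg d) (T : Foliation K 3)
    (E1 : ExactOne d T) (E2 : ExactTwo d T) (w : DVal K) (hw : IsPrimeOn (Xd d h) w) :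
    (∃ n : ℤ, IsCanOrd T w n ∧
      (n : ℝ) = 2 / 3 * (w.ord ((1 - d.a ^ 2) / d.a ^ 2) : ℝ)
        + 2 / 3 * (w.ord ((1 - d.b ^ 2) / d.b ^ 2) : ℝ) + 2 * (w.ord d.a : ℝ) + 2 * (w.ord d.b : ℝ)
        - 2 * ng (w.ord d.c) + 2 / 3 * mn d w) ∧
    (Sb d w ≠ 0 → IsS d w) := by
  rcases prime_cases d h w hw with ⟨ta, tb, tc, ha, hb, hc, hl⟩ | ⟨hl, hwa⟩
  · have ma : d.a ∈ IntermediateField.adjoin ℂ (Set.range ![ta, tb, tc]) :=
      mem_field_a ![ta, tb, tc] (j := 0) rfl ha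
    have mb : d.b ∈ IntermediateField.adjoin ℂ (Set.range ![ta, tb, tc]) :=
      mem_field_a ![ta, tb, tc] (j := 1) rfl hb
    have mc : d.c ∈ IntermediateField.adjoin ℂ (Set.range ![ta, tb, tc]) :=
      mem_field_a ![ta, tb, tc] (j := 2) rfl hc
    obtain ⟨π, hπ, hover⟩ := TH126.C8_OVER.prime_over ![ta, tb, tc]
      (ind_of d _ ma mb mc) (alg_of d _ ma mb mc) w hl
    obtain ⟨hmin, n, hn, hn'⟩ := E1 ta tb tc ha hb hc w hl ⟨π, hπ, hover⟩
    have hmn : mn d w = 0 := by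
      unfold mn
      apply max_eq_left
      exact_mod_cast hmin
    refine ⟨⟨n, hn, by rw [hn', hmn]; ring⟩, fun hS => ?_⟩
    refine isS_of d w ha hb hc hl hπ hover ?_
    by_contra hneg
    apply hS
    unfold Sb ps
    rw [hmn, sub_zero]
    apply max_eq_left
    exact_mod_cast not_lt.1 hneg
  · have ma : d.a ∈ IntermediateField.adjoin ℂ (Set.range ![d.a, d.b / d.a, d.c / d.a]) :=
      mem_field ![d.a, d.b / d.a, d.c / d.a] 0
    have mb : d.b ∈ IntermediateField.adjoin ℂ (Set.range ![d.a, d.b / d.a, d.c / d.a]) := by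
      have h3 : d.b / d.a * d.a = d.b := by rw [div_mul_cancel₀ _ d.a_ne]
      have h4 := mul_mem (mem_field ![d.a, d.b / d.a, d.c / d.a] 1) ma
      have h5 : (![d.a, d.b / d.a, d.c / d.a] : Fin 3 → K) 1 * d.a = d.b := h3
      rwa [h5] at h4
    have mc : d.c ∈ IntermediateField.adjoin ℂ (Set.range ![d.a, d.b / d.a, d.c / d.a]) := by
      have h3 : d.c / d.a * d.a = d.c := by rw [div_mul_cancel₀ _ d.a_ne]
      have h4 := mul_mem (mem_field ![d.a, d.b / d.a, d.c / d.a] 2) ma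
      have h5 : (![d.a, d.b / d.a, d.c / d.a] : Fin 3 → K) 2 * d.a = d.c := h3
      rwa [h5] at h4
    obtain ⟨h1, h2, h3, h4⟩ := E2 w hl hwa (TH126.C8_OVER.prime_over _
      (ind_of d _ ma mb mc) (alg_of d _ ma mb mc) w hl)
    have hmn : mn d w = 1 := by
      unfold mn
      rw [h1, h2, h3]
      norm_num
    refine ⟨⟨2, h4, ?_⟩, fun hS => ?_⟩
    · rw [ord_one_sub d.a_ne hwa (one_sub_a d), ord_one_sub d.b_ne (by omega) (one_sub_b d), h1, h2,
        h3, hmn]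
      unfold ng
      norm_num
    · exfalso
      apply hS
      unfold Sb ps
      rw [hmn, h3]
      norm_num

/-- The canonical order at the prime divisors on `X`, and the support of `Sb`. -/
theorem prime_X [Algebra.EssFiniteType ℂ K] (d : Dat K) (h : XiAlg d) (T : Foliation K 3)
    (hT : IsPd d T) (w : DVal K) (hw : IsPrimeOn (Xd d h) w) :
    (∃ n : ℤ, IsCanOrd T w n ∧
      (n : ℝ) = 2 / 3 * (w.ord ((1 - d.a ^ 2) / d.a ^ 2) : ℝ)
        + 2 / 3 * (w.ord ((1 - d.b ^ 2) / d.b ^ 2) : ℝ) + 2 * (w.ord d.a : ℝ) + 2 * (w.ord d.b : ℝ)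
        - 2 * ng (w.ord d.c) + 2 / 3 * mn d w) ∧
    (Sb d w ≠ 0 → IsS d w) :=
  prime_X_of d h T
    (fun ta tb tc ha hb hc w hw hover =>
      TH152.C8_EXACT.exact_one d T hT ta tb tc ha hb hc w hw hover)
    (fun w hw hwa hover => TH152.C8_EXACT.exact_two d T hT w hw hwa hover) w hw

end Pool.Agent.TH796.C8_XM2
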