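import Mathlib
import Pool.Agent.H438R2.RZ.P8
import Pool.Agent.TH278.Defs
set_option autoImplicit false

/-! Job 638 (helper278): vector valued bound for all annuli from radii in `[1/2,1]` and small
annuli (dyadic scaling). -/

namespace Pool.Agent.TH796.J638

open MeasureTheory Set Complex
open scoped ENNReal RealInnerProductSpace
open Pool.Agent.H438R2.RZ (e Good ft Pl Bump mA mC Arc Win sl SL Bk gA TR)
open Pool.Agent.H789R2.FR (E)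
open Pool.Agent.TH278

theorem smul_pair (s : ℝ) (z : ℝ × ℝ) : s • z = (s * z.1, s * z.2) := rfl

theorem finrank_plane : Module.finrank ℝ (ℝ × ℝ) = 2 := by simp

theorem integral_scale (F : ℝ × ℝ → ℂ) {s : ℝ} (hs : 0 < s) :
    ∫ z : ℝ × ℝ, F (z.1 / s, z.2 / s) = ((s ^ 2 : ℝ) : ℂ) * ∫ z, F z := by
  have h := Measure.integral_comp_smul (volume : Measure (ℝ × ℝ)) F s⁻¹
  rw [finrank_plane] at h
  have h1 : ∀ z : ℝ × ℝ, s⁻¹ • z = (z.1 / s, z.2 / s) := by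
    intro z
    rw [smul_pair, div_eq_inv_mul, div_eq_inv_mul]
  simp only [h1] at h
  rw [h, inv_pow, inv_inv, abs_of_pos (by positivity)]
  rfl

theorem lintegral_scale (F : ℝ × ℝ → ℝ≥0∞) {s : ℝ} (hs : 0 < s) :
    ∫⁻ z : ℝ × ℝ, F (s * z.1, s * z.2) = ENNReal.ofReal ((s ^ 2)⁻¹) * ∫⁻ z, F z := by
  have h1 : Measure.map (fun z : ℝ × ℝ => s • z) volume =
      ENNReal.ofReal (|(s ^ 2)⁻¹|) • (volume : Measure (ℝ × ℝ)) := by
    have := Measure.map_addHaar_smul (volume : Measure (ℝ × ℝ)) hs.ne'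
    rwa [finrank_plane] at this
  have h2 := (measurableEmbedding_const_smul₀ hs.ne').lintegral_map (μ := (volume : Measure (ℝ × ℝ))) F
  change ∫⁻ z : ℝ × ℝ, F (s • z) = _
  rw [← h2, h1, lintegral_smul_measure, abs_of_pos (by positivity)]
  rfl

theorem ft_scale (g : ℝ × ℝ → ℂ) {s : ℝ} (hs : 0 < s) (ξ : ℝ × ℝ) :
    ft (fun w => g (w.1 / s, w.2 / s)) ξ = ((s ^ 2 : ℝ) : ℂ) * ft g (s * ξ.1, s * ξ.2) := by
  unfold ft
  rw [← integral_scale _ hs]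
  refine integral_congr_ae (Filter.Eventually.of_forall fun w => ?_)
  simp only
  congr 2
  field_simp

theorem Pl_scale (m g : ℝ × ℝ → ℂ) {s : ℝ} (hs : 0 < s) (z : ℝ × ℝ) :
    Pl (fun ξ => m (ξ.1 / s, ξ.2 / s)) g z =
      Pl m (fun w => g (w.1 / s, w.2 / s)) (s * z.1, s * z.2) := by
  unfold Pl
  simp only [ft_scale g hs]
  have h1 : ∀ ξ : ℝ × ℝ, m ξ * (((s ^ 2 : ℝ) : ℂ) * ft g (s * ξ.1, s * ξ.2)) *
      e (s * z.1 * ξ.1 + s * z.2 * ξ.2) = ((s ^ 2 : ℝ) : ℂ) * (m ξ * ft g (s * ξ.1, s * ξ.2) *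
      e (s * z.1 * ξ.1 + s * z.2 * ξ.2)) := fun ξ => by ring
  simp only [h1]
  rw [integral_const_mul, ← integral_scale _ hs]
  refine integral_congr_ae (Filter.Eventually.of_forall fun w => ?_)
  simp only
  have h2 : s * (w.1 / s) = w.1 := by field_simp
  have h3 : s * (w.2 / s) = w.2 := by field_simp
  have h4 : s * z.1 * (w.1 / s) + s * z.2 * (w.2 / s) = z.1 * w.1 + z.2 * w.2 := by field_simp
  rw [h2, h3, h4]

theorem mV_scale (ψ : ℝ → ℝ) (L v : ℝ) {s : ℝ} (hs : 0 < s) :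
    mV ψ L v = fun ξ : ℝ × ℝ => mV ψ (L * s) (v / s ^ 2) (ξ.1 / s, ξ.2 / s) := by
  funext ξ
  unfold mV
  simp only
  have h : L ^ 2 * (v - (ξ.1 ^ 2 + ξ.2 ^ 2)) =
      (L * s) ^ 2 * (v / s ^ 2 - ((ξ.1 / s) ^ 2 + (ξ.2 / s) ^ 2)) := by
    field_simp
  rw [h]

section meas

variable {Z : Type} [MeasurableSpace Z]

theorem cont_e : Continuous e := by
  unfold e
  fun_prop

theorem meas_ftF {G : Z → ℝ × ℝ → ℂ} (hG : Measurable (Function.uncurry G)) :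
    Measurable (fun p : Z × (ℝ × ℝ) => ft (G p.1) p.2) := by
  have h : Measurable (fun q : (Z × (ℝ × ℝ)) × (ℝ × ℝ) =>
      e (-(q.2.1 * q.1.2.1 + q.2.2 * q.1.2.2)) * G q.1.1 q.2) := by
    refine Measurable.mul (cont_e.measurable.comp (by fun_prop)) ?_
    exact hG.comp (f := fun q : (Z × (ℝ × ℝ)) × (ℝ × ℝ) => (q.1.1, q.2)) (by fun_prop)
  exact h.stronglyMeasurable.integral_prod_right'.measurable

theorem meas_PlF {ψ : ℝ → ℝ} (hψ : Measurable ψ) (L : ℝ) {v : Z → ℝ} (hv : Measurable v)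
    {G : Z → ℝ × ℝ → ℂ} (hG : Measurable (Function.uncurry G)) :
    Measurable (fun p : Z × (ℝ × ℝ) => Pl (mV ψ L (v p.1)) (G p.1) p.2) := by
  have h : Measurable (fun q : (Z × (ℝ × ℝ)) × (ℝ × ℝ) =>
      mV ψ L (v q.1.1) q.2 * ft (G q.1.1) q.2 * e (q.1.2.1 * q.2.1 + q.1.2.2 * q.2.2)) := by
    refine Measurable.mul (Measurable.mul ?_ ?_) (cont_e.measurable.comp (by fun_prop))
    · unfold mV
      refine Complex.measurable_ofReal.comp (hψ.comp ?_)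
      have : Measurable fun q : (Z × (ℝ × ℝ)) × (ℝ × ℝ) => v q.1.1 :=
        hv.comp (measurable_fst.comp measurable_fst)
      fun_prop
    · exact (meas_ftF hG).comp (f := fun q : (Z × (ℝ × ℝ)) × (ℝ × ℝ) => (q.1.1, q.2)) (by fun_prop)
  exact h.stronglyMeasurable.integral_prod_right'.measurable

theorem meas_S {ψ : ℝ → ℝ} (hψ : Measurable ψ) (L : ℝ) {v : Z → ℝ} (hv : Measurable v)
    {G : Z → ℝ × ℝ → ℂ} (hG : Measurable (Function.uncurry G)) (ν : Measure Z) [SFinite ν] :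
    Measurable (fun z : ℝ × ℝ => ∫⁻ ζ, ‖Pl (mV ψ L (v ζ)) (G ζ) z‖ₑ ^ 2 ∂ν) := by
  have h := ((meas_PlF hψ L hv hG).enorm.pow_const 2)
  exact h.lintegral_prod_left'

end meas

theorem bump_meas {ψ : ℝ → ℝ} (hψ : Bump ψ) : Measurable ψ := hψ.1.continuous.measurable

theorem GoodF_scale {Z : Type} [MeasurableSpace Z] {G : Z → ℝ × ℝ → ℂ} (hG : GoodF G) {s : ℝ}
    (hs : 0 < s) : GoodF (fun ζ w => G ζ (w.1 / s, w.2 / s)) := by
  obtain ⟨h1, ⟨M, hM⟩, B, hB⟩ := hG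
  refine ⟨?_, ⟨M, fun ζ z => hM _ _⟩, s * B, fun ζ z hz => ?_⟩
  · exact h1.comp (f := fun p : Z × (ℝ × ℝ) => (p.1, (p.2.1 / s, p.2.2 / s))) (by fun_prop)
  · have h2 := hB ζ _ hz
    simp only at h2
    rw [abs_div, abs_div, abs_of_pos hs, div_le_iff₀ hs, div_le_iff₀ hs] at h2
    exact ⟨by linarith [h2.1], by linarith [h2.2]⟩

/-- one dyadic piece -/
theorem piece {ψ : ℝ → ℝ} {C : ℝ} (h1 : VVR ψ C) {L : ℝ} {s : ℝ} (hs : 0 < s) (hs1 : s ≤ 1)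
    (hLs : 20 ≤ L * s) {Z : Type} [MeasurableSpace Z] (ν : Measure Z) [IsFiniteMeasure ν]
    {v : Z → ℝ} (hv : Measurable v) {G : Z → ℝ × ℝ → ℂ} (hG : GoodF G) {A : Set Z}
    (hA : MeasurableSet A) (hA1 : ∀ ζ ∈ A, s ^ 2 / 4 ≤ v ζ ∧ v ζ ≤ s ^ 2) (hC : 0 < C) :
    ∫⁻ z, (∫⁻ ζ in A, ‖Pl (mV ψ L (v ζ)) (G ζ) z‖ₑ ^ 2 ∂ν) ^ 2 ≤
        ENNReal.ofReal (C * (1 + Real.log L) ^ 2) * ∫⁻ z, (∫⁻ ζ in A, ‖G ζ z‖ₑ ^ 2 ∂ν) ^ 2 := by
  classical
  set r : Z → ℝ := fun ζ => if ζ ∈ A then Real.sqrt (v ζ) / s else 1 with hr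
  have hrm : Measurable r := Measurable.ite hA (by fun_prop) measurable_const
  have hr1 : ∀ ζ, 1 / 2 ≤ r ζ ∧ r ζ ≤ 1 := by
    intro ζ
    rw [hr]
    simp only
    split_ifs with h
    · obtain ⟨h2, h3⟩ := hA1 ζ h
      constructor
      · rw [le_div_iff₀ hs]
        apply Real.le_sqrt_of_sq_le
        nlinarith
      · rw [div_le_iff₀ hs, one_mul]
        exact (Real.sqrt_le_left hs.le).2 h3
    · norm_num
  have hr2 : ∀ ζ ∈ A, r ζ ^ 2 = v ζ / s ^ 2 := by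
    intro ζ h
    rw [hr]
    simp only [h, if_true]
    have h2 : 0 ≤ v ζ := le_trans (by positivity) (hA1 ζ h).1
    rw [div_pow, Real.sq_sqrt h2]
  have key := h1 (L * s) hLs Z (ν.restrict A) r hrm hr1 _ (GoodF_scale hG hs)
  set Φ : ℝ × ℝ → ℝ≥0∞ := fun z => (∫⁻ ζ in A, ‖Pl (mV ψ (L * s) (r ζ ^ 2))
    (fun w => G ζ (w.1 / s, w.2 / s)) z‖ₑ ^ 2 ∂ν) ^ 2 with hΦ
  set Ψ : ℝ × ℝ → ℝ≥0∞ := fun z => (∫⁻ ζ in A, ‖G ζ (z.1 / s, z.2 / s)‖ₑ ^ 2 ∂ν) ^ 2 with hΨ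
  have e1 : ∀ z : ℝ × ℝ, (∫⁻ ζ in A, ‖Pl (mV ψ L (v ζ)) (G ζ) z‖ₑ ^ 2 ∂ν) ^ 2 =
      Φ (s * z.1, s * z.2) := by
    intro z
    rw [hΦ]
    simp only
    congr 1
    refine setLIntegral_congr_fun hA fun ζ hζ => ?_
    rw [mV_scale ψ L (v ζ) hs, Pl_scale _ _ hs, hr2 ζ hζ]
  have e2 : ∀ z : ℝ × ℝ, (∫⁻ ζ in A, ‖G ζ z‖ₑ ^ 2 ∂ν) ^ 2 = Ψ (s * z.1, s * z.2) := by
    intro z
    rw [hΨ]
    simp only
    rw [mul_div_cancel_left₀ _ hs.ne', mul_div_cancel_left₀ _ hs.ne']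
  simp only [e1, e2]
  rw [lintegral_scale _ hs, lintegral_scale _ hs]
  have hlog : 1 + Real.log (L * s) ≤ 1 + Real.log L := by
    have hL : 0 < L := by
      by_contra h
      have : L * s ≤ 0 := mul_nonpos_of_nonpos_of_nonneg (not_lt.1 h) hs.le
      linarith
    have : Real.log (L * s) ≤ Real.log L := Real.log_le_log (by linarith) (by nlinarith)
    linarith
  have hlog0 : 0 ≤ 1 + Real.log (L * s) := by
    have := Real.log_nonneg (show (1 : ℝ) ≤ L * s by linarith)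
    linarith
  calc ENNReal.ofReal ((s ^ 2)⁻¹) * ∫⁻ z, Φ z
      ≤ ENNReal.ofReal ((s ^ 2)⁻¹) *
        (ENNReal.ofReal (C * (1 + Real.log (L * s)) ^ 2) * ∫⁻ z, Ψ z) := by
        gcongr
    _ ≤ ENNReal.ofReal ((s ^ 2)⁻¹) *
        (ENNReal.ofReal (C * (1 + Real.log L) ^ 2) * ∫⁻ z, Ψ z) := by
        gcongr
    _ = _ := by ring

theorem split_all {Z : Type} [MeasurableSpace Z] (ν : Measure Z) {v : Z → ℝ} (hv : Measurable v)
    (hv1 : ∀ ζ, v ζ ≤ 1) (f : Z → ℝ≥0∞) (J : ℕ) :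
    ∫⁻ ζ, f ζ ∂ν = (∑ j ∈ Finset.range J,
      ∫⁻ ζ in {ζ | (1 / 4 : ℝ) ^ (j + 1) < v ζ ∧ v ζ ≤ (1 / 4 : ℝ) ^ j}, f ζ ∂ν) +
      ∫⁻ ζ in {ζ | v ζ ≤ (1 / 4 : ℝ) ^ J}, f ζ ∂ν := by
  induction J with
  | zero =>
    simp only [Finset.range_zero, Finset.sum_empty, zero_add, pow_zero]
    have : {ζ | v ζ ≤ 1} = univ := eq_univ_of_forall hv1
    rw [this, setLIntegral_univ]
  | succ J ih =>
    rw [ih, Finset.sum_range_succ, add_assoc]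
    congr 1
    have h1 : {ζ | v ζ ≤ (1 / 4 : ℝ) ^ J} =
        {ζ | (1 / 4 : ℝ) ^ (J + 1) < v ζ ∧ v ζ ≤ (1 / 4 : ℝ) ^ J} ∪
        {ζ | v ζ ≤ (1 / 4 : ℝ) ^ (J + 1)} := by
      ext ζ
      simp only [mem_ofPred_eq, mem_union]
      have h2 : (1 / 4 : ℝ) ^ (J + 1) ≤ (1 / 4 : ℝ) ^ J :=
        pow_le_pow_of_le_one (by norm_num) (by norm_num) (Nat.le_succ J)
      constructor
      · intro h
        by_cases h3 : v ζ ≤ (1 / 4 : ℝ) ^ (J + 1)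
        · exact Or.inr h3
        · exact Or.inl ⟨not_le.1 h3, h⟩
      · rintro (h | h)
        · exact h.2
        · exact h.trans h2
    have h2 : Disjoint {ζ | (1 / 4 : ℝ) ^ (J + 1) < v ζ ∧ v ζ ≤ (1 / 4 : ℝ) ^ J}
        {ζ | v ζ ≤ (1 / 4 : ℝ) ^ (J + 1)} := by
      rw [Set.disjoint_left]
      intro ζ h3 h4
      exact absurd h3.1 (not_lt.2 h4)
    rw [h1, lintegral_union (measurableSet_le hv measurable_const) h2]

theorem sum_sq {ι : Type*} (s : Finset ι) (f : ι → ℝ≥0∞) :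
    ∑ i ∈ s, f i ^ 2 ≤ (∑ i ∈ s, f i) ^ 2 := by
  classical
  induction s using Finset.induction_on with
  | empty => simp
  | insert a s ha ih =>
    rw [Finset.sum_insert ha, Finset.sum_insert ha, add_sq]
    calc f a ^ 2 + ∑ i ∈ s, f i ^ 2 ≤ f a ^ 2 + (∑ i ∈ s, f i) ^ 2 := by gcongr
      _ ≤ f a ^ 2 + 2 * f a * (∑ i ∈ s, f i) + (∑ i ∈ s, f i) ^ 2 := by
        gcongr
        exact le_self_add

theorem VV_of (ψ : ℝ → ℝ) (hψ : Bump ψ) (h1 : ∃ C : ℝ, 0 < C ∧ VVR ψ C)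
    (h2 : ∀ κ : ℝ, 0 < κ → ∃ C : ℝ, 0 < C ∧ VVS ψ κ C) : ∃ C : ℝ, 0 < C ∧ VV ψ C := by
  obtain ⟨C1, hC1, h1⟩ := h1
  obtain ⟨C2, hC2, h2⟩ := h2 400 (by norm_num)
  refine ⟨3 * (C1 + C2), by positivity, ?_⟩
  intro L hL Z _ ν _ v hv hv1 G hG
  have hψm := bump_meas hψ
  have hex : ∃ j : ℕ, L < 20 * 2 ^ j := by
    obtain ⟨j, hj⟩ := pow_unbounded_of_one_lt L (show (1 : ℝ) < 2 by norm_num)
    exact ⟨j, by linarith [pow_pos (show (0 : ℝ) < 2 by norm_num) j]⟩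
  classical
  set J := Nat.find hex with hJdef
  have hJ : L < 20 * 2 ^ J := Nat.find_spec hex
  have hJ' : ∀ j < J, 20 * 2 ^ j ≤ L := fun j hj => not_lt.1 (Nat.find_min hex hj)
  have hlog1 : 0 ≤ Real.log L := Real.log_nonneg (by linarith)
  -- the number of pieces
  have hJcard : (J : ℝ) + 1 ≤ 3 * (1 + Real.log L) := by
    rcases Nat.eq_zero_or_pos J with h | h
    · rw [h]
      push_cast
      linarith
    · obtain ⟨m, hm⟩ := Nat.exists_eq_succ_of_ne_zero h.ne'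
      have h3 := hJ' m (by omega)
      have h4 : (2 : ℝ) ^ m ≤ L := by
        have : (0 : ℝ) < 2 ^ m := by positivity
        linarith
      have h5 : (m : ℝ) * Real.log 2 ≤ Real.log L := by
        rw [← Real.log_pow]
        exact Real.log_le_log (by positivity) h4
      have h6 : (1 / 2 : ℝ) ≤ Real.log 2 := by
        have := Real.log_two_gt_d9
        linarith
      have h7 : (m : ℝ) * (1 / 2) ≤ Real.log L := by
        refine le_trans ?_ h5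
        gcongr
      rw [hm]
      push_cast
      linarith
  set Zj : ℕ → Set Z := fun j => {ζ | (1 / 4 : ℝ) ^ (j + 1) < v ζ ∧ v ζ ≤ (1 / 4 : ℝ) ^ j} with hZj
  set A : Set Z := {ζ | v ζ ≤ (1 / 4 : ℝ) ^ J} with hAdef
  have hZm : ∀ j, MeasurableSet (Zj j) := fun j =>
    (measurableSet_lt measurable_const hv).inter (measurableSet_le hv measurable_const)
  have hAm : MeasurableSet A := measurableSet_le hv measurable_const
  -- the dyadic pieces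
  have big : ∀ j < J, ∫⁻ z, (∫⁻ ζ in Zj j, ‖Pl (mV ψ L (v ζ)) (G ζ) z‖ₑ ^ 2 ∂ν) ^ 2 ≤
      ENNReal.ofReal (C1 * (1 + Real.log L) ^ 2) *
        ∫⁻ z, (∫⁻ ζ in Zj j, ‖G ζ z‖ₑ ^ 2 ∂ν) ^ 2 := by
    intro j hj
    have h3 : (0 : ℝ) < 2 ^ j := by positivity
    refine piece h1 (s := (1 / 2) ^ j) (by positivity)
      (pow_le_one₀ (by norm_num) (by norm_num)) ?_ ν hv hG (hZm j) ?_ hC1
    · rw [div_pow, one_pow, mul_one_div, le_div_iff₀ h3]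
      exact hJ' j hj
    · intro ζ hζ
      have h4 : ((1 / 2 : ℝ) ^ j) ^ 2 = (1 / 4) ^ j := by
        rw [← pow_mul, mul_comm, pow_mul]
        norm_num
      rw [h4]
      refine ⟨?_, hζ.2⟩
      have h5 := hζ.1
      rw [pow_succ] at h5
      linarith
  -- the small annuli
  have small : ∫⁻ z, (∫⁻ ζ in A, ‖Pl (mV ψ L (v ζ)) (G ζ) z‖ₑ ^ 2 ∂ν) ^ 2 ≤
      ENNReal.ofReal C2 * ∫⁻ z, (∫⁻ ζ in A, ‖G ζ z‖ₑ ^ 2 ∂ν) ^ 2 := by
    set v' : Z → ℝ := fun ζ => if ζ ∈ A then v ζ else 0 with hv'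
    have h3 : Measurable v' := Measurable.ite hAm hv measurable_const
    have h4 : ∀ ζ, v' ζ ≤ 400 / L ^ 2 := by
      intro ζ
      rw [hv']
      simp only
      split_ifs with h
      · refine le_trans h ?_
        rw [div_pow, one_pow, div_le_div_iff₀ (by positivity) (by positivity)]
        have h5 : (4 : ℝ) ^ J = (2 ^ J) ^ 2 := by
          rw [← pow_mul, mul_comm, pow_mul]
          norm_num
        rw [h5]
        nlinarith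
      · positivity
    have h5 := h2 L (by linarith) Z (ν.restrict A) v' h3 h4 G hG
    have h6 : ∀ z, ∫⁻ ζ in A, ‖Pl (mV ψ L (v' ζ)) (G ζ) z‖ₑ ^ 2 ∂ν =
        ∫⁻ ζ in A, ‖Pl (mV ψ L (v ζ)) (G ζ) z‖ₑ ^ 2 ∂ν := by
      intro z
      refine setLIntegral_congr_fun hAm fun ζ hζ => ?_
      rw [hv']
      simp only [hζ, if_true]
    simp only [h6] at h5
    exact h5
  -- assembly
  have hm : ∀ B : Set Z, Measurable fun z : ℝ × ℝ =>
      ∫⁻ ζ in B, ‖Pl (mV ψ L (v ζ)) (G ζ) z‖ₑ ^ 2 ∂ν := fun B => meas_S hψm L hv hG.1 (ν.restrict B)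
  have hmG : ∀ B : Set Z, Measurable fun z : ℝ × ℝ =>
      ∫⁻ ζ in B, ‖G ζ z‖ₑ ^ 2 ∂ν := fun B => by
    have h := ((hG.1).enorm.pow_const 2)
    exact h.lintegral_prod_left'
  set b : ℕ → Set Z := fun j => if j < J then Zj j else A with hb
  have hsplit : ∀ f : Z → ℝ≥0∞, ∫⁻ ζ, f ζ ∂ν = ∑ j ∈ Finset.range (J + 1), ∫⁻ ζ in b j, f ζ ∂ν := by
    intro f
    rw [split_all ν hv hv1 f J, Finset.sum_range_succ]
    congr 1
    · refine Finset.sum_congr rfl fun j hj => ?_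
      rw [hb]
      simp only [Finset.mem_range.1 hj, if_true]
      rfl
    · rw [hb]
      simp only [lt_irrefl, if_false]
      rfl
  have hpiece : ∀ j ∈ Finset.range (J + 1),
      ∫⁻ z, (∫⁻ ζ in b j, ‖Pl (mV ψ L (v ζ)) (G ζ) z‖ₑ ^ 2 ∂ν) ^ 2 ≤
      ENNReal.ofReal ((C1 + C2) * (1 + Real.log L) ^ 2) *
        ∫⁻ z, (∫⁻ ζ in b j, ‖G ζ z‖ₑ ^ 2 ∂ν) ^ 2 := by
    intro j hj
    have hsq : 1 ≤ (1 + Real.log L) ^ 2 := by nlinarith
    rcases Nat.lt_or_ge j J with h | h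
    · have h3 : b j = Zj j := by
        rw [hb]
        simp only [h, if_true]
      rw [h3]
      refine (big j h).trans ?_
      gcongr
      linarith
    · have h3 : b j = A := by
        rw [hb]
        simp only [not_lt.2 h, if_false]
      rw [h3]
      refine small.trans ?_
      gcongr
      nlinarith
  calc ∫⁻ z, (∫⁻ ζ, ‖Pl (mV ψ L (v ζ)) (G ζ) z‖ₑ ^ 2 ∂ν) ^ 2
      = ∫⁻ z, (∑ j ∈ Finset.range (J + 1),
          ∫⁻ ζ in b j, ‖Pl (mV ψ L (v ζ)) (G ζ) z‖ₑ ^ 2 ∂ν) ^ 2 := by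
        simp only [hsplit (fun ζ => ‖Pl (mV ψ L (v ζ)) (G ζ) _‖ₑ ^ 2)]
    _ ≤ ∫⁻ z, ((J + 1 : ℕ) : ℝ≥0∞) * ∑ j ∈ Finset.range (J + 1),
          (∫⁻ ζ in b j, ‖Pl (mV ψ L (v ζ)) (G ζ) z‖ₑ ^ 2 ∂ν) ^ 2 := by
        refine lintegral_mono fun z => ?_
        have := Pool.Agent.H438R2.RZ.P8aux.sum_sq_le (Finset.range (J + 1))
          (fun j => ∫⁻ ζ in b j, ‖Pl (mV ψ L (v ζ)) (G ζ) z‖ₑ ^ 2 ∂ν)
        rwa [Finset.card_range] at this
    _ = ((J + 1 : ℕ) : ℝ≥0∞) * ∑ j ∈ Finset.range (J + 1),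
          ∫⁻ z, (∫⁻ ζ in b j, ‖Pl (mV ψ L (v ζ)) (G ζ) z‖ₑ ^ 2 ∂ν) ^ 2 := by
        rw [lintegral_const_mul _ (Finset.measurable_sum _ fun j _ => (hm (b j)).pow_const 2),
          lintegral_finsetSum _ fun j _ => (hm (b j)).pow_const 2]
    _ ≤ ((J + 1 : ℕ) : ℝ≥0∞) * ∑ j ∈ Finset.range (J + 1),
          ENNReal.ofReal ((C1 + C2) * (1 + Real.log L) ^ 2) *
            ∫⁻ z, (∫⁻ ζ in b j, ‖G ζ z‖ₑ ^ 2 ∂ν) ^ 2 := by
        gcongr with j hj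
        exact hpiece j hj
    _ = ((J + 1 : ℕ) : ℝ≥0∞) * (ENNReal.ofReal ((C1 + C2) * (1 + Real.log L) ^ 2) *
          ∫⁻ z, ∑ j ∈ Finset.range (J + 1), (∫⁻ ζ in b j, ‖G ζ z‖ₑ ^ 2 ∂ν) ^ 2) := by
        rw [← Finset.mul_sum, lintegral_finsetSum _ fun j _ => (hmG (b j)).pow_const 2]
    _ ≤ ((J + 1 : ℕ) : ℝ≥0∞) * (ENNReal.ofReal ((C1 + C2) * (1 + Real.log L) ^ 2) *
          ∫⁻ z, (∫⁻ ζ, ‖G ζ z‖ₑ ^ 2 ∂ν) ^ 2) := by
        gcongr with z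
        rw [hsplit (fun ζ => ‖G ζ z‖ₑ ^ 2)]
        exact sum_sq _ _
    _ ≤ ENNReal.ofReal (3 * (C1 + C2) * (1 + Real.log L) ^ 4) *
          ∫⁻ z, (∫⁻ ζ, ‖G ζ z‖ₑ ^ 2 ∂ν) ^ 2 := by
        rw [← mul_assoc]
        gcongr
        rw [← ENNReal.ofReal_natCast, ← ENNReal.ofReal_mul (by positivity)]
        apply ENNReal.ofReal_le_ofReal
        push_cast
        have hl : 1 ≤ 1 + Real.log L := by linarith
        calc ((J : ℝ) + 1) * ((C1 + C2) * (1 + Real.log L) ^ 2)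
            ≤ (3 * (1 + Real.log L)) * ((C1 + C2) * (1 + Real.log L) ^ 2) := by gcongr
          _ = 3 * (C1 + C2) * (1 + Real.log L) ^ 3 := by ring
          _ ≤ 3 * (C1 + C2) * (1 + Real.log L) ^ 4 := by
            gcongr
            norm_num

end Pool.Agent.TH796.J638
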