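import Mathlib
import Pool.Agent.TH60.LR.Defs

/-!
Job 555 (helper60), LR-5: nested cuts from finite split data.
-/

set_option autoImplicit false

namespace Pool.Agent.TH796.LR5

open Pool.Agent.TH60.LR Pointwise Filter

section graph

variable {V : Type} {adj : V → V → Prop}

theorem exists_cross {A : Set V} {x y : V} (h : Relation.ReflTransGen adj x y) (hx : x ∈ A)
    (hy : y ∉ A) : ∃ p, p ∈ bdry adj A := by
  induction h with
  | refl => exact absurd hx hy
  | @tail b c hab hbc ih =>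
    by_cases hb : b ∈ A
    · exact ⟨(b, c), hbc, hb, hy⟩
    · exact ih hb

variable {Γ : Type} [Group Γ] [MulAction Γ V]

theorem pow_inj {n : Γ} (hn : ∀ k : ℕ, 0 < k → ∀ v : V, n ^ k • v ≠ v) (z : V) :
    Function.Injective fun i : ℕ => n ^ i • z := by
  intro i j hij
  change n ^ i • z = n ^ j • z at hij
  by_contra hne
  rcases Nat.lt_or_gt_of_ne hne with h | h
  · obtain ⟨k, rfl⟩ := Nat.exists_eq_add_of_lt h
    apply hn (k + 1) (Nat.succ_pos k) z
    rw [show i + k + 1 = i + (k + 1) by ring, pow_add, mul_smul] at hij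
    exact (smul_left_cancel _ hij).symm
  · obtain ⟨k, rfl⟩ := Nat.exists_eq_add_of_lt h
    apply hn (k + 1) (Nat.succ_pos k) z
    rw [show j + k + 1 = j + (k + 1) by ring, pow_add, mul_smul] at hij
    exact smul_left_cancel _ hij

theorem finite_change {n : Γ} (hn : ∀ k : ℕ, 0 < k → ∀ v : V, n ^ k • v ≠ v)
    (hinv : ∀ (g : Γ) (x y : V), adj x y → adj (g • x) (g • y))
    (hsymm : ∀ x y, adj x y → adj y x) {A : Set V}
    (hA : (bdry adj A).Finite) {v z : V} (h : Relation.ReflTransGen adj v z) :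
    {i : ℕ | ¬ (n ^ i • v ∈ A ↔ n ^ i • z ∈ A)}.Finite := by
  induction h with
  | refl => simp
  | @tail b c hab hbc ih =>
    have h1 : {i : ℕ | (n ^ i • b, n ^ i • c) ∈ bdry adj A}.Finite := by
      refine Set.Finite.preimage (f := fun i : ℕ => (n ^ i • b, n ^ i • c)) ?_ hA
      intro i _ j _ hij
      exact pow_inj hn b (Prod.ext_iff.1 hij).1
    have h2 : {i : ℕ | (n ^ i • c, n ^ i • b) ∈ bdry adj A}.Finite := by
      refine Set.Finite.preimage (f := fun i : ℕ => (n ^ i • c, n ^ i • b)) ?_ hA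
      intro i _ j _ hij
      exact pow_inj hn b (Prod.ext_iff.1 hij).2
    refine (ih.union (h1.union h2)).subset ?_
    intro i hi
    by_cases hb : (n ^ i • v ∈ A ↔ n ^ i • b ∈ A)
    · right
      have hi' : ¬ (n ^ i • b ∈ A ↔ n ^ i • c ∈ A) := fun h => hi (hb.trans h)
      by_cases h3 : n ^ i • b ∈ A
      · left
        exact ⟨hinv _ _ _ hbc, h3, fun h4 => hi' (iff_of_true h3 h4)⟩
      · right
        refine ⟨hsymm _ _ (hinv _ _ _ hbc), ?_, h3⟩
        by_contra h4
        exact hi' (iff_of_false h3 h4)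
    · left
      exact hb

theorem decides {n : Γ} (hn : ∀ k : ℕ, 0 < k → ∀ v : V, n ^ k • v ≠ v)
    (hinv : ∀ (g : Γ) (x y : V), adj x y → adj (g • x) (g • y))
    (hsymm : ∀ x y, adj x y → adj y x) (hconn : ∀ x y, Relation.ReflTransGen adj x y) {A : Set V}
    (hA : (bdry adj A).Finite) (v : V) :
    (∀ᶠ i : ℕ in atTop, n ^ i • v ∈ A) ∨ (∀ᶠ i : ℕ in atTop, n ^ i • v ∈ Aᶜ) := by
  have h1 := finite_change hn hinv hsymm hA (hconn v (n • v))
  obtain ⟨M, hM⟩ := h1.bddAbove
  have h2 : ∀ i, M < i → (n ^ i • v ∈ A ↔ n ^ (i + 1) • v ∈ A) := by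
    intro i hi
    by_contra h3
    have h4 : i ∈ {i : ℕ | ¬ (n ^ i • v ∈ A ↔ n ^ i • n • v ∈ A)} := by
      change ¬ (n ^ i • v ∈ A ↔ n ^ i • n • v ∈ A)
      rwa [← mul_smul, ← pow_succ]
    exact absurd (hM h4) (not_le.2 hi)
  have h5 : ∀ k : ℕ, (n ^ (M + 1) • v ∈ A ↔ n ^ (M + 1 + k) • v ∈ A) := by
    intro k
    induction k with
    | zero => rfl
    | succ k ih => exact ih.trans (h2 (M + 1 + k) (by omega))
  by_cases h6 : n ^ (M + 1) • v ∈ A
  · left
    rw [eventually_atTop]
    refine ⟨M + 1, fun i hi => ?_⟩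
    obtain ⟨k, rfl⟩ := Nat.exists_eq_add_of_le hi
    exact (h5 k).1 h6
  · right
    rw [eventually_atTop]
    refine ⟨M + 1, fun i hi h7 => ?_⟩
    obtain ⟨k, rfl⟩ := Nat.exists_eq_add_of_le hi
    exact h6 ((h5 k).2 h7)

end graph

section split

variable {Γ V : Type} [Group Γ] [MulAction Γ V] {N : Subgroup Γ} (d : SplitData N V)

theorem adj_symm (x y : V) (h : d.adj x y) : d.adj y x := by
  obtain ⟨g, e, h⟩ := h
  exact ⟨g, e, h.symm.imp (fun h => ⟨h.2, h.1⟩) (fun h => ⟨h.2, h.1⟩)⟩

theorem adj_smul (g : Γ) (x y : V) (h : d.adj x y) : d.adj (g • x) (g • y) := by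
  obtain ⟨k, e, h⟩ := h
  refine ⟨g * k, e, ?_⟩
  rcases h with ⟨rfl, rfl⟩ | ⟨rfl, rfl⟩
  · left
    exact ⟨(mul_smul _ _ _).symm, (mul_smul _ _ _).symm⟩
  · right
    exact ⟨(mul_smul _ _ _).symm, (mul_smul _ _ _).symm⟩

theorem adj_smul_iff (g : Γ) (x y : V) : d.adj (g • x) (g • y) ↔ d.adj x y := by
  refine ⟨fun h => ?_, adj_smul d g x y⟩
  have := adj_smul d g⁻¹ _ _ h
  rwa [inv_smul_smul, inv_smul_smul] at this

theorem D_self (u : V) : d.D u u = 0 := by
  have := d.D_add u u u
  simpa using this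

theorem eq_of_D {u v : V} (h : d.D u v = 0) : u = v := by
  have h1 := d.bd u v
  rw [h, Finsupp.sum_zero_index] at h1
  have h2 : Finsupp.single u (1 : ℤ) = Finsupp.single v (1 : ℤ) := (sub_eq_zero.1 h1.symm)
  exact (Finsupp.single_left_inj one_ne_zero).1 h2

end split

theorem cutsOfSplit (h2 : NestedCuts) (h3 : AdjConnected) (h3' : LevelBound)
    (h4 : EndsSeparated) : CutsOfSplit := by
  intro Γ V _ _ N _ _ htf hfin
  obtain ⟨d, F, hF, hF'⟩ := hfin
  obtain ⟨n₀, hn₀⟩ := h3' Γ V N d F hF hF'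
  have hconn := h3 Γ V N d
  obtain ⟨𝓔, e1, e2, e3, e4, e5, e6, e7⟩ := h2 V d.adj (adj_symm d) hconn n₀
  refine ⟨𝓔, ?_, e2, e3, e5, e6, ?_, ?_, ?_⟩
  · intro g A hA
    have := e1 (MulAction.toPerm g) (fun x y => adj_smul_iff d g x y) A hA
    exact this
  · intro u v huv
    have hne : d.D u v ≠ 0 := fun h => huv (eq_of_D d h)
    obtain ⟨e, he⟩ : ∃ e, d.D u v e ≠ 0 := by
      by_contra hcon
      push Not at hcon
      exact hne (Finsupp.ext hcon)
    obtain ⟨A, hA, h5, h6⟩ := e7 (pure u) (pure v) inferInstance inferInstance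
      (fun A _ => by
        rw [mem_pure, mem_pure]
        exact em _)
      (fun A _ => by
        rw [mem_pure, mem_pure]
        exact em _)
      ⟨{x | d.D x v e = d.D u v e}, (hn₀ v e _).1, (hn₀ v e _).2, by
        rw [mem_pure]
        rfl, by
        rw [mem_pure]
        intro h
        apply he
        rw [← (h : d.D v v e = d.D u v e), D_self d v]
        rfl⟩
    exact ⟨A, hA, h5, h6⟩
  · intro A hA n hn hnA
    by_contra hne
    obtain ⟨x, hx⟩ := e3 A hA
    obtain ⟨y, hy⟩ := e3 _ (e2 A hA)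
    obtain ⟨⟨p, q⟩, hp⟩ := exists_cross (hconn x y) hx hy
    have hmem : ∀ z : V, n • z ∈ A ↔ z ∈ A := by
      intro z
      conv_lhs => rw [← hnA]
      exact Set.smul_mem_smul_set_iff
    have hpow : ∀ i : ℕ, (n ^ i • p, n ^ i • q) ∈ bdry d.adj A := by
      intro i
      induction i with
      | zero => simpa using hp
      | succ i ih =>
        rw [pow_succ', mul_smul, mul_smul]
        exact ⟨adj_smul d _ _ _ ih.1, (hmem _).2 ih.2.1, fun h => ih.2.2 ((hmem _).1 h)⟩
    obtain ⟨i, j, hij, heq⟩ : ∃ i j : ℕ, i < j ∧ (n ^ i • p, n ^ i • q) = (n ^ j • p, n ^ j • q) := by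
      have h5 : ¬ Function.Injective fun i : ℕ =>
          (⟨(n ^ i • p, n ^ i • q), hpow i⟩ : bdry d.adj A) := by
        intro hinj
        have := (e4 A hA).to_subtype
        exact not_injective_infinite_finite _ hinj
      rw [Function.Injective] at h5
      push Not at h5
      obtain ⟨i, j, h6, h7⟩ := h5
      have h8 : (n ^ i • p, n ^ i • q) = (n ^ j • p, n ^ j • q) := congrArg Subtype.val h6
      rcases Nat.lt_or_gt_of_ne h7 with h | h
      · exact ⟨i, j, h, h8⟩
      · exact ⟨j, i, h, h8.symm⟩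
    obtain ⟨k, rfl⟩ := Nat.exists_eq_add_of_lt hij
    rw [show i + k + 1 = i + (k + 1) by ring, pow_add, mul_smul, mul_smul] at heq
    have hfp : n ^ (k + 1) • p = p := (smul_left_cancel _ (Prod.ext_iff.1 heq).1).symm
    have hfq : n ^ (k + 1) • q = q := (smul_left_cancel _ (Prod.ext_iff.1 heq).2).symm
    have hm1 : n ^ (k + 1) ≠ 1 := fun h => hne (htf n hn (k + 1) (Nat.succ_pos k) h)
    set m : N := ⟨n ^ (k + 1), pow_mem hn _⟩ with hm
    have hmp : m • p = p := hfp
    have hmq : m • q = q := hfq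
    have hD : d.D p q = 0 := by
      by_contra hne'
      obtain ⟨e, he⟩ : ∃ e, d.D p q e ≠ 0 := by
        by_contra hcon
        push Not at hcon
        exact hne' (Finsupp.ext hcon)
      have h5 : ∀ j : ℕ, d.D p q (m ^ j • e) = d.D p q e := by
        intro j
        induction j with
        | zero => rw [pow_zero, one_smul]
        | succ j ih =>
          have h6 := d.D_smul m p q (m ^ j • e)
          rw [hmp, hmq] at h6
          rw [pow_succ', mul_smul, h6, ih]
      have h6 : ∀ j : ℕ, m ^ j • e ∈ (d.D p q).support := by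
        intro j
        rw [Finsupp.mem_support_iff, h5]
        exact he
      have h7 : Function.Injective fun j : ℕ => m ^ j • e := by
        have h8 : ∀ a b : ℕ, a < b → m ^ a • e ≠ m ^ b • e := by
          intro a b hab h9
          obtain ⟨c, rfl⟩ := Nat.exists_eq_add_of_lt hab
          rw [show a + c + 1 = a + (c + 1) by ring, pow_add, mul_smul] at h9
          have h10 : m ^ (c + 1) • e = e := (smul_left_cancel _ h9).symm
          have h11 := d.free _ _ h10
          have h12 : (n ^ (k + 1)) ^ (c + 1) = 1 := by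
            have := congrArg (Subtype.val) h11
            simpa [hm] using this
          exact hm1 (htf _ (pow_mem hn _) (c + 1) (Nat.succ_pos c) h12)
        intro a b hab
        by_contra hne''
        rcases Nat.lt_or_gt_of_ne hne'' with h | h
        · exact h8 a b h hab
        · exact h8 b a h hab.symm
      have h8 : Set.Infinite ((d.D p q).support : Set d.E) :=
        Set.infinite_of_injective_forall_mem h7 h6
      exact h8 (Finset.finite_toSet _)
    have hpq := eq_of_D d hD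
    rw [hpq] at hp
    exact hp.2.2 hp.2.1
  · intro n hn hfree v
    obtain ⟨e, k, h5, h6⟩ := h4 N V d ⟨n, hn⟩ hfree v
    have hfree' : ∀ k : ℕ, 0 < k → ∀ v : V, n⁻¹ ^ k • v ≠ v := by
      intro k hk v h
      apply hfree k hk v
      rw [inv_pow] at h
      rw [inv_smul_eq_iff] at h
      exact h.symm
    have d1 := fun (A : Set V) (hA : (bdry d.adj A).Finite) =>
      decides hfree (adj_smul d) (adj_symm d) hconn hA v
    have d2 := fun (A : Set V) (hA : (bdry d.adj A).Finite) =>
      decides hfree' (adj_smul d) (adj_symm d) hconn hA v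
    obtain ⟨A, hA, h7, h8⟩ := e7 (map (fun i : ℕ => n ^ i • v) atTop)
      (map (fun i : ℕ => n⁻¹ ^ i • v) atTop) inferInstance inferInstance d1 d2
      ⟨{x | d.D x v e = k}, (hn₀ v e k).1, (hn₀ v e k).2, h5, h6⟩
    exact ⟨A, hA, h7, h8⟩

end Pool.Agent.TH796.LR5
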