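import Pool.Agent.TH625.GM.Props

/-! Job 693 (helper625): absolute convergence of theta series; laws T, S and `E 1 = thk 0`. -/

set_option autoImplicit false

open Complex MeasureTheory
open UpperHalfPlane hiding I
open scoped Real MatrixGroups ModularForm

namespace Pool.Agent.TH796.J693

open Pool.Agent.TH625.GM

/-- the exponential term of the theta series -/
noncomputable def tm (s x y : ℝ) (b : ℤ × ℤ) : ℂ :=
  cexp (((-(π * y * maj s b) : ℝ) : ℂ) + ((2 * π * x * nm b : ℝ) : ℂ) * I)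

theorem Th_eq (F : ℤ × ℤ → ℂ) (s x y : ℝ) : Th F s x y = ∑' b, F b * tm s x y b := rfl

theorem norm_tm (s x y : ℝ) (b : ℤ × ℤ) : ‖tm s x y b‖ = Real.exp (-(π * y * maj s b)) := by
  unfold tm
  rw [Complex.norm_exp]
  congr 1
  simp [-ofReal_neg, -ofReal_mul]

theorem maj_ge (s : ℝ) (b : ℤ × ℤ) :
    Real.exp (-(2 * |s|)) * ((b.1 : ℝ) ^ 2 + (b.2 : ℝ) ^ 2) ≤ maj s b := by
  have h1 : Real.exp (-(2 * |s|)) ≤ Real.exp (2 * s) :=
    Real.exp_le_exp.2 (by linarith [neg_abs_le s])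
  have h2 : Real.exp (-(2 * |s|)) ≤ Real.exp (-(2 * s)) :=
    Real.exp_le_exp.2 (by linarith [le_abs_self s])
  have h3 : (b.1 : ℝ) ^ 2 + (b.2 : ℝ) ^ 2 ≤ e1 b ^ 2 + e2 b ^ 2 := by
    unfold e1 e2
    have hs := Real.goldenRatio_add_goldenConj
    have hp := Real.goldenRatio_mul_goldenConj
    have h4 : ((b.1 : ℝ) + b.2 * Real.goldenRatio) ^ 2 + ((b.1 : ℝ) + b.2 * Real.goldenConj) ^ 2 =
        (b.1 : ℝ) ^ 2 + (b.1 + b.2 : ℝ) ^ 2 + 2 * (b.2 : ℝ) ^ 2 := by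
      have h5 : Real.goldenConj = 1 - Real.goldenRatio := by linarith
      rw [h5] at hp ⊢
      linear_combination (-2 * (b.2 : ℝ) ^ 2) * hp
    rw [h4]
    nlinarith [sq_nonneg ((b.1 + b.2 : ℝ)), sq_nonneg (b.2 : ℝ)]
  unfold maj
  calc Real.exp (-(2 * |s|)) * ((b.1 : ℝ) ^ 2 + (b.2 : ℝ) ^ 2)
      ≤ Real.exp (-(2 * |s|)) * (e1 b ^ 2 + e2 b ^ 2) := by gcongr
    _ = e1 b ^ 2 * Real.exp (-(2 * |s|)) + e2 b ^ 2 * Real.exp (-(2 * |s|)) := by ring
    _ ≤ _ := by gcongr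

theorem summable_one (k : ℕ) {T : ℝ} (hT : 0 < T) :
    Summable fun n : ℤ => (1 + |(n : ℝ)|) ^ k * Real.exp (-(π * T * (n : ℝ) ^ 2)) := by
  have h1 := summable_pow_mul_jacobiTheta₂_term_bound 0 hT k
  have h2 := summable_pow_mul_jacobiTheta₂_term_bound 0 hT 0
  refine Summable.of_nonneg_of_le (fun n => by positivity) (fun n => ?_)
    ((h2.add h1).mul_left ((2 : ℝ) ^ k))
  have h3 : (1 + |(n : ℝ)|) ^ k ≤ 2 ^ k * (1 + |(n : ℝ)| ^ k) := by
    rcases le_total 1 |(n : ℝ)| with h | h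
    · calc (1 + |(n : ℝ)|) ^ k ≤ (2 * |(n : ℝ)|) ^ k := by gcongr; linarith
        _ = 2 ^ k * |(n : ℝ)| ^ k := mul_pow _ _ _
        _ ≤ _ := by gcongr; linarith
    · calc (1 + |(n : ℝ)|) ^ k ≤ (2 : ℝ) ^ k := by gcongr; linarith
        _ = 2 ^ k * 1 := by ring
        _ ≤ _ := by gcongr; linarith [pow_nonneg (abs_nonneg (n : ℝ)) k]
  have h4 : -(π * T * (n : ℝ) ^ 2) = -π * (T * (n : ℝ) ^ 2 - 2 * 0 * (|n| : ℤ)) := by ring
  rw [h4]
  calc (1 + |(n : ℝ)|) ^ k * Real.exp (-π * (T * (n : ℝ) ^ 2 - 2 * 0 * (|n| : ℤ)))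
      ≤ (2 ^ k * (1 + |(n : ℝ)| ^ k)) * Real.exp (-π * (T * (n : ℝ) ^ 2 - 2 * 0 * (|n| : ℤ))) := by
        gcongr
    _ = _ := by
      push_cast
      ring

theorem thSummable : ThSummable := by
  intro F k C hF s x y hy
  set c := Real.exp (-(2 * |s|)) with hc
  have hc0 : 0 < c := Real.exp_pos _
  have hT : 0 < y * c := mul_pos hy hc0
  have h1 := summable_one k hT
  have h2 := (h1.mul_of_nonneg h1 (fun n => by positivity) (fun n => by positivity)).mul_left C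
  have hC : 0 ≤ C := by
    have := (norm_nonneg _).trans (hF 0)
    simpa using this
  refine Summable.of_norm_bounded h2 fun b => ?_
  change ‖F b * tm s x y b‖ ≤ _
  rw [norm_mul, norm_tm]
  have h3 : Real.exp (-(π * y * maj s b)) ≤
      Real.exp (-(π * (y * c) * (b.1 : ℝ) ^ 2)) * Real.exp (-(π * (y * c) * (b.2 : ℝ) ^ 2)) := by
    rw [← Real.exp_add, Real.exp_le_exp]
    have h4 := maj_ge s b
    have h5 : π * y * (c * ((b.1 : ℝ) ^ 2 + (b.2 : ℝ) ^ 2)) ≤ π * y * maj s b :=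
      mul_le_mul_of_nonneg_left h4 (by positivity)
    linarith
  have h6 : (1 + |(b.1 : ℝ)| + |(b.2 : ℝ)|) ^ k ≤ (1 + |(b.1 : ℝ)|) ^ k * (1 + |(b.2 : ℝ)|) ^ k := by
    rw [← mul_pow]
    gcongr
    nlinarith [mul_nonneg (abs_nonneg (b.1 : ℝ)) (abs_nonneg (b.2 : ℝ))]
  calc ‖F b‖ * Real.exp (-(π * y * maj s b))
      ≤ (C * (1 + |(b.1 : ℝ)| + |(b.2 : ℝ)|) ^ k) * (Real.exp (-(π * (y * c) * (b.1 : ℝ) ^ 2)) *
          Real.exp (-(π * (y * c) * (b.2 : ℝ) ^ 2))) := by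
        gcongr
        exact hF b
    _ ≤ (C * ((1 + |(b.1 : ℝ)|) ^ k * (1 + |(b.2 : ℝ)|) ^ k)) *
          (Real.exp (-(π * (y * c) * (b.1 : ℝ) ^ 2)) *
          Real.exp (-(π * (y * c) * (b.2 : ℝ) ^ 2))) := by
        gcongr
    _ = _ := by ring

theorem summable_bdd (F : ℤ × ℤ → ℂ) (hF : ∀ b, ‖F b‖ ≤ 1) (s x y : ℝ) (hy : 0 < y) :
    Summable fun b => F b * tm s x y b :=
  thSummable F 0 1 (fun b => by simpa using hF b) s x y hy

/-! ### the law T -/

theorem nm_zmod (b : ℤ × ℤ) : ((nm b : ℤ) : ZMod 5) = rs b ^ 2 := by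
  unfold nm rs
  push_cast
  have h5 : (5 : ZMod 5) = 0 := by decide
  linear_combination (-(b.1 : ZMod 5) * b.2 - 2 * (b.2 : ZMod 5) ^ 2) * h5

theorem T_re (z : ℍ) : (ModularGroup.T • z).re = 1 + z.re := by
  rw [UpperHalfPlane.modular_T_smul]
  exact UpperHalfPlane.vadd_re 1 z

theorem T_im (z : ℍ) : (ModularGroup.T • z).im = z.im := by
  rw [UpperHalfPlane.modular_T_smul]
  exact UpperHalfPlane.vadd_im 1 z

theorem lawT : LawT := by
  intro k s z
  unfold thk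
  rw [T_re, T_im, Th_eq, Th_eq, mul_left_comm (ZMod.stdAddChar (-(k ^ 2)) : ℂ)]
  congr 1
  rw [← tsum_mul_left]
  refine tsum_congr fun b => ?_
  by_cases h : rs b = k
  · simp only [h, if_true, one_mul]
    have h1 : (ZMod.stdAddChar (-(k ^ 2)) : ℂ) = cexp (2 * π * I * ((-nm b : ℤ) : ℂ) / 5) := by
      have h2 : (-(k ^ 2) : ZMod 5) = ((-nm b : ℤ) : ZMod 5) := by
        rw [Int.cast_neg, nm_zmod, h]
      rw [h2, ZMod.stdAddChar_coe]
      norm_num
    rw [h1]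
    unfold tm
    rw [← Complex.exp_add]
    congr 1
    push_cast
    ring
  · simp [h]

/-! ### `E 1 = thk 0` -/

/-- multiplication by `√5` -/
def sq5 (b : ℤ × ℤ) : ℤ × ℤ := (2 * b.2 - b.1, 2 * b.1 + b.2)

theorem e1_sq5 (b : ℤ × ℤ) : e1 (sq5 b) = (2 * Real.goldenRatio - 1) * e1 b := by
  unfold e1 sq5
  push_cast
  have h := Real.goldenRatio_sq
  linear_combination (-2 * (b.2 : ℝ)) * h

theorem e2_sq5 (b : ℤ × ℤ) : e2 (sq5 b) = (2 * Real.goldenConj - 1) * e2 b := by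
  unfold e2 sq5
  push_cast
  have h := Real.goldenConj_sq
  linear_combination (-2 * (b.2 : ℝ)) * h

theorem five1 : (2 * Real.goldenRatio - 1) ^ 2 = 5 := by
  have h := Real.goldenRatio_sq
  linear_combination 4 * h

theorem five2 : (2 * Real.goldenConj - 1) ^ 2 = 5 := by
  have h := Real.goldenConj_sq
  linear_combination 4 * h

theorem maj_sq5 (s : ℝ) (b : ℤ × ℤ) : maj s (sq5 b) = 5 * maj s b := by
  unfold maj
  rw [e1_sq5, e2_sq5, mul_pow, mul_pow, five1, five2]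
  ring

theorem nm_sq5 (b : ℤ × ℤ) : nm (sq5 b) = -5 * nm b := by
  unfold nm sq5
  ring

theorem sq5_inj : Function.Injective sq5 := by
  intro b c h
  unfold sq5 at h
  rw [Prod.mk.injEq] at h
  obtain ⟨h1, h2⟩ := h
  ext <;> omega

theorem rs_sq5 (b : ℤ × ℤ) : rs (sq5 b) = 0 := by
  unfold rs sq5
  push_cast
  have h5 : (5 : ZMod 5) = 0 := by decide
  linear_combination ((b.1 : ZMod 5) + b.2) * h5

theorem rs_eq_iff (b : ℤ × ℤ) (l : ℤ) : rs b = (l : ZMod 5) ↔ (5 : ℤ) ∣ b.1 + 3 * b.2 - l := by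
  have h : rs b - (l : ZMod 5) = ((b.1 + 3 * b.2 - l : ℤ) : ZMod 5) := by
    unfold rs
    push_cast
    ring
  rw [← sub_eq_zero, h]
  exact ZMod.intCast_zmod_eq_zero_iff_dvd _ 5

theorem lawOne : LawOne := by
  intro s z
  unfold thk E
  congr 1
  rw [Th_eq, Th_eq]
  have hsupp : Function.support (fun b => (if rs b = 0 then (1 : ℂ) else 0) *
      tm s (-(z.re / 5)) (z.im / 5) b) ⊆ Set.range sq5 := by
    intro b hb
    have h1 : rs b = 0 := by
      by_contra h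
      apply hb
      simp [h]
    have h2 : (5 : ℤ) ∣ b.1 + 3 * b.2 - 0 := (rs_eq_iff b 0).1 (by simpa using h1)
    obtain ⟨m, hm⟩ := h2
    refine ⟨(b.2 - m, 2 * m - b.2), ?_⟩
    unfold sq5
    ext <;> simp only <;> omega
  rw [← sq5_inj.tsum_eq hsupp]
  refine tsum_congr fun b => ?_
  rw [rs_sq5, if_pos rfl]
  unfold tm
  rw [maj_sq5, nm_sq5]
  congr 2
  push_cast
  ring

/-! ### the law S -/

/-- the coset parametrisation -/
def gg (l : ℤ) (p : ℤ × ℤ) : ℤ × ℤ := (-l - 2 * p.1 - p.2, l + 2 * p.2 - p.1)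

theorem gg_inj (l : ℤ) : Function.Injective (gg l) := by
  intro b c h
  unfold gg at h
  rw [Prod.mk.injEq] at h
  obtain ⟨h1, h2⟩ := h
  ext <;> omega

theorem rs_gg (l : ℤ) (p : ℤ × ℤ) : rs (gg l p) = ((2 * l : ℤ) : ZMod 5) := by
  rw [rs_eq_iff]
  unfold gg
  exact ⟨p.2 - p.1, by ring⟩

theorem gg_surj (l : ℤ) (b : ℤ × ℤ) (h : rs b = ((2 * l : ℤ) : ZMod 5)) : b ∈ Set.range (gg l) := by
  obtain ⟨m, hm⟩ := (rs_eq_iff b (2 * l)).1 h
  refine ⟨(b.2 - 2 * m - l, b.2 - m - l), ?_⟩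
  unfold gg
  ext <;> simp only <;> omega

theorem e1_gg (l : ℤ) (p : ℤ × ℤ) : e1 (gg l p) = (2 * Real.goldenRatio - 1) *
    (((3 * l / 5 : ℝ) + p.2) - Real.goldenRatio * ((l / 5 : ℝ) + p.1)) := by
  unfold e1 gg
  push_cast
  have h := Real.goldenRatio_sq
  linear_combination (2 * ((l / 5 : ℝ) + p.1)) * h

theorem e2_gg (l : ℤ) (p : ℤ × ℤ) : e2 (gg l p) = (2 * Real.goldenConj - 1) *
    (((3 * l / 5 : ℝ) + p.2) - Real.goldenConj * ((l / 5 : ℝ) + p.1)) := by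
  unfold e2 gg
  push_cast
  have h := Real.goldenConj_sq
  linear_combination (2 * ((l / 5 : ℝ) + p.1)) * h

/-- coefficients of the majorant -/
noncomputable def ca (s : ℝ) : ℝ := Real.exp (2 * s) + Real.exp (-(2 * s))
noncomputable def cb (s : ℝ) : ℝ :=
  Real.goldenRatio * Real.exp (2 * s) + Real.goldenConj * Real.exp (-(2 * s))
noncomputable def cc (s : ℝ) : ℝ :=
  Real.goldenRatio ^ 2 * Real.exp (2 * s) + Real.goldenConj ^ 2 * Real.exp (-(2 * s))

theorem cc_eq (s : ℝ) : cc s = ca s + cb s := by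
  unfold cc ca cb
  rw [Real.goldenRatio_sq, Real.goldenConj_sq]
  ring

theorem disc_eq (s : ℝ) : ca s * cc s - cb s ^ 2 = 5 := by
  unfold cc ca cb
  have h1 : Real.exp (2 * s) * Real.exp (-(2 * s)) = 1 := by
    rw [← Real.exp_add]; simp
  have h2 : (Real.goldenRatio - Real.goldenConj) ^ 2 = 5 := by
    rw [Real.goldenRatio_sub_goldenConj]
    exact Real.sq_sqrt (by norm_num)
  linear_combination ((Real.goldenRatio - Real.goldenConj) ^ 2) * h1 + h2

theorem ca_pos (s : ℝ) : 0 < ca s := by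
  unfold ca
  positivity

theorem maj_eq (s : ℝ) (p : ℤ × ℤ) :
    maj s p = ca s * (p.1 : ℝ) ^ 2 + 2 * cb s * p.1 * p.2 + cc s * (p.2 : ℝ) ^ 2 := by
  unfold maj e1 e2 ca cb cc
  ring

theorem maj_gg (s : ℝ) (l : ℤ) (p : ℤ × ℤ) :
    maj s (gg l p) = 5 * (cc s * ((l / 5 : ℝ) + p.1) ^ 2 -
      2 * cb s * ((l / 5 : ℝ) + p.1) * ((3 * l / 5 : ℝ) + p.2) +
      ca s * ((3 * l / 5 : ℝ) + p.2) ^ 2) := by
  unfold maj
  rw [e1_gg, e2_gg, mul_pow, mul_pow, five1, five2]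
  unfold ca cb cc
  ring

theorem nm_gg (l : ℤ) (p : ℤ × ℤ) :
    (nm (gg l p) : ℝ) = -5 * (((3 * l / 5 : ℝ) + p.2) ^ 2 -
      ((l / 5 : ℝ) + p.1) * ((3 * l / 5 : ℝ) + p.2) - ((l / 5 : ℝ) + p.1) ^ 2) := by
  unfold nm gg
  push_cast
  ring

theorem dual (hP : Poisson2) (l : ℤ) (s x y : ℝ) (hy : 0 < y) :
    ∑' p : ℤ × ℤ, cexp (2 * π * I * ((l * (p.1 + 3 * p.2) : ℤ) : ℂ) / 5) *
        tm s (x / (x ^ 2 + y ^ 2) / 5) (y / (x ^ 2 + y ^ 2) / 5) p =
      ((√5 * √(x ^ 2 + y ^ 2) : ℝ) : ℂ) *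
        ∑' b : ℤ × ℤ, (if rs b = ((2 * l : ℤ) : ZMod 5) then (1 : ℂ) else 0) *
          tm s (-(x / 5)) (y / 5) b := by
  set N := x ^ 2 + y ^ 2 with hN
  have hN0 : 0 < N := by positivity
  set X := x / N / 5 with hX
  set Y := y / N / 5 with hY
  have hY0 : 0 < Y := by positivity
  have hX5 : 5 * N * X = x := by rw [hX]; field_simp
  have hY5 : 5 * N * Y = y := by rw [hY]; field_simp
  set A : ℂ := I * (Y * ca s : ℝ) + (2 * X : ℝ) with hA
  set B : ℂ := I * (Y * cb s : ℝ) + (X : ℝ) with hB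
  set C : ℂ := I * (Y * cc s : ℝ) - (2 * X : ℝ) with hC
  set r : ℝ := 1 / (√5 * √N) with hr
  have hr0 : 0 < r := by positivity
  have hr2 : r ^ 2 = 1 / (5 * N) := by
    rw [hr, div_pow, mul_pow, Real.sq_sqrt (by norm_num), Real.sq_sqrt hN0.le, one_pow]
  have hAim : A.im = Y * ca s := by
    rw [hA, Complex.add_im, Complex.ofReal_im, Complex.I_mul_im, Complex.ofReal_re, add_zero]
  have hBim : B.im = Y * cb s := by
    rw [hB, Complex.add_im, Complex.ofReal_im, Complex.I_mul_im, Complex.ofReal_re, add_zero]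
  have hCim : C.im = Y * cc s := by
    rw [hC, Complex.sub_im, Complex.ofReal_im, Complex.I_mul_im, Complex.ofReal_re, sub_zero]
  have hXY : X ^ 2 + Y ^ 2 = 1 / (25 * N) := by
    rw [hX, hY, hN]
    have : x ^ 2 + y ^ 2 ≠ 0 := by positivity
    field_simp
    norm_num
  have hdisc := disc_eq s
  have hcc := cc_eq s
  have key : B ^ 2 - A * C = (r : ℂ) ^ 2 := by
    have h1 : B ^ 2 - A * C = ((5 * (X ^ 2 + Y ^ 2) : ℝ) : ℂ) := by
      rw [hA, hB, hC]
      have h2 : (ca s : ℂ) * cc s - cb s ^ 2 = 5 := by exact_mod_cast hdisc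
      have h3 : (cc s : ℂ) = ca s + cb s := by exact_mod_cast hcc
      push_cast
      have hI : I ^ 2 = -1 := Complex.I_sq
      linear_combination ((Y : ℂ) ^ 2) * h2 + (-2 * I * X * Y) * h3 +
        ((Y : ℂ) ^ 2 * (cb s) ^ 2 - (Y : ℂ) ^ 2 * ca s * cc s) * hI
    rw [h1, hXY]
    rw [← Complex.ofReal_pow, hr2]
    congr 1
    field_simp
    norm_num
  have H := hP A B C (l / 5) (3 * l / 5) r (by rw [hAim]; exact mul_pos hY0 (ca_pos s))
    (by
      rw [hAim, hBim, hCim]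
      have : 0 < Y ^ 2 := by positivity
      nlinarith) hr0 key
  have H2 := H.tsum_eq
  -- rewrite the dual side
  have h1 : ∀ p : ℤ × ℤ, cexp (π * I * ((C * (((l / 5 : ℝ) : ℂ) + p.1) ^ 2 -
      2 * B * (((l / 5 : ℝ) : ℂ) + p.1) * (((3 * l / 5 : ℝ) : ℂ) + p.2) +
      A * (((3 * l / 5 : ℝ) : ℂ) + p.2) ^ 2) / (r : ℂ) ^ 2)) =
      (fun b => (if rs b = ((2 * l : ℤ) : ZMod 5) then (1 : ℂ) else 0) *
          tm s (-(x / 5)) (y / 5) b) (gg l p) := by
    intro p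
    simp only [rs_gg, if_true, one_mul]
    unfold tm
    rw [maj_gg, nm_gg]
    congr 1
    have hr2' : (r : ℂ) ^ 2 = 1 / (5 * N) := by
      rw [← Complex.ofReal_pow, hr2]; push_cast; ring
    have hX5' : (5 : ℂ) * N * X = x := by exact_mod_cast hX5
    have hY5' : (5 : ℂ) * N * Y = y := by exact_mod_cast hY5
    rw [hr2', hA, hB, hC]
    have hN' : (N : ℂ) ≠ 0 := by exact_mod_cast hN0.ne'
    rw [div_div_eq_mul_div, div_one]
    push_cast
    rw [← hX5', ← hY5']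
    have hI : I ^ 2 = -1 := Complex.I_sq
    ring_nf
    rw [hI]
    ring
  rw [tsum_congr h1, (gg_inj l).tsum_eq (f := fun b =>
    (if rs b = ((2 * l : ℤ) : ZMod 5) then (1 : ℂ) else 0) * tm s (-(x / 5)) (y / 5) b)] at H2
  · rw [H2]
    have h2 : ∀ p : ℤ × ℤ, cexp (2 * π * I * ((l * (p.1 + 3 * p.2) : ℤ) : ℂ) / 5) *
        tm s X Y p = cexp (π * I * (A * p.1 ^ 2 + 2 * B * p.1 * p.2 + C * p.2 ^ 2) +
      2 * π * I * (((l / 5 : ℝ) : ℂ) * p.1 + ((3 * l / 5 : ℝ) : ℂ) * p.2)) := by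
      intro p
      unfold tm
      rw [← Complex.exp_add, maj_eq, hA, hB, hC]
      congr 1
      unfold nm
      push_cast
      have hI : I ^ 2 = -1 := Complex.I_sq
      ring_nf
      rw [hI]
      ring
    rw [tsum_congr h2, ← mul_assoc, ← Complex.ofReal_mul]
    have h3 : √5 * √N * r = 1 := by
      rw [hr]; field_simp
    rw [h3]
    simp
  · intro b hb
    refine gg_surj l b ?_
    by_contra h
    apply hb
    simp only [h, if_false, zero_mul]

theorem S_im (z : ℍ) : (ModularGroup.S • z).im = z.im / (z.re ^ 2 + z.im ^ 2) := by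
  rw [UpperHalfPlane.modular_S_smul]
  change ((-(z : ℂ))⁻¹).im = _
  rw [Complex.inv_im, Complex.normSq_neg, Complex.neg_im, neg_neg, Complex.normSq_apply]
  simp only [UpperHalfPlane.coe_im, UpperHalfPlane.coe_re]
  ring

theorem S_re (z : ℍ) : (ModularGroup.S • z).re = -(z.re / (z.re ^ 2 + z.im ^ 2)) := by
  rw [UpperHalfPlane.modular_S_smul]
  change ((-(z : ℂ))⁻¹).re = _
  rw [Complex.inv_re, Complex.normSq_neg, Complex.neg_re, Complex.normSq_apply]
  simp only [UpperHalfPlane.coe_im, UpperHalfPlane.coe_re]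
  ring

theorem char_eq (l : ZMod 5) (p : ℤ × ℤ) :
    (ZMod.stdAddChar (l * rs p) : ℂ) =
      cexp (2 * π * I * (((l.val : ℤ) * (p.1 + 3 * p.2) : ℤ) : ℂ) / 5) := by
  have h : l * rs p = (((l.val : ℤ) * (p.1 + 3 * p.2) : ℤ) : ZMod 5) := by
    unfold rs
    push_cast
    rw [ZMod.natCast_zmod_val]
  rw [h, ZMod.stdAddChar_coe]
  norm_num

theorem dualk (hP : Poisson2) (l : ZMod 5) (s : ℝ) (z : ℍ) :
    ∑ k : ZMod 5, (ZMod.stdAddChar (l * k) : ℂ) * thk k s (ModularGroup.S • z) =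
      ((√5 : ℝ) : ℂ) * thk (2 * l) s z := by
  have hy := z.im_pos
  set x := z.re with hx
  set y := z.im with hy'
  have hN0 : 0 < x ^ 2 + y ^ 2 := by positivity
  have h0 := dual hP (l.val : ℤ) s x y hy
  have h1 : ∑ k : ZMod 5, (ZMod.stdAddChar (l * k) : ℂ) *
      Th (fun b => if rs b = k then 1 else 0) s (x / (x ^ 2 + y ^ 2) / 5)
        (y / (x ^ 2 + y ^ 2) / 5) =
      ∑' p : ℤ × ℤ, cexp (2 * π * I * (((l.val : ℤ) * (p.1 + 3 * p.2) : ℤ) : ℂ) / 5) *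
        tm s (x / (x ^ 2 + y ^ 2) / 5) (y / (x ^ 2 + y ^ 2) / 5) p := by
    have h2 : ∀ k : ZMod 5, Summable fun p : ℤ × ℤ => (ZMod.stdAddChar (l * k) : ℂ) *
        ((if rs p = k then (1 : ℂ) else 0) *
          tm s (x / (x ^ 2 + y ^ 2) / 5) (y / (x ^ 2 + y ^ 2) / 5) p) := fun k =>
      (summable_bdd _ (fun b => by split_ifs <;> simp) s _ _ (by positivity)).mul_left _
    calc ∑ k : ZMod 5, (ZMod.stdAddChar (l * k) : ℂ) *
          Th (fun b => if rs b = k then 1 else 0) s (x / (x ^ 2 + y ^ 2) / 5)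
            (y / (x ^ 2 + y ^ 2) / 5)
        = ∑ k : ZMod 5, ∑' p : ℤ × ℤ, (ZMod.stdAddChar (l * k) : ℂ) *
        ((if rs p = k then (1 : ℂ) else 0) *
          tm s (x / (x ^ 2 + y ^ 2) / 5) (y / (x ^ 2 + y ^ 2) / 5) p) := by
          refine Finset.sum_congr rfl fun k _ => ?_
          rw [Th_eq, ← tsum_mul_left]
      _ = ∑' p : ℤ × ℤ, ∑ k : ZMod 5, (ZMod.stdAddChar (l * k) : ℂ) *
        ((if rs p = k then (1 : ℂ) else 0) *
          tm s (x / (x ^ 2 + y ^ 2) / 5) (y / (x ^ 2 + y ^ 2) / 5) p) :=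
          (Summable.tsum_finsetSum fun k _ => h2 k).symm
      _ = _ := by
          refine tsum_congr fun p => ?_
          rw [Finset.sum_eq_single (rs p)]
          · rw [if_pos rfl, one_mul, char_eq]
          · intro k _ hk
            rw [if_neg (Ne.symm hk)]
            ring
          · intro h
            exact absurd (Finset.mem_univ _) h
  have h3 : ∀ k : ZMod 5, thk k s (ModularGroup.S • z) = (√(y / (x ^ 2 + y ^ 2)) : ℂ) *
      Th (fun b => if rs b = k then 1 else 0) s (x / (x ^ 2 + y ^ 2) / 5)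
        (y / (x ^ 2 + y ^ 2) / 5) := by
    intro k
    unfold thk
    rw [S_re, S_im, neg_div, neg_neg]
  have h4 : ∑ k : ZMod 5, (ZMod.stdAddChar (l * k) : ℂ) * thk k s (ModularGroup.S • z) =
      (√(y / (x ^ 2 + y ^ 2)) : ℂ) * ∑ k : ZMod 5, (ZMod.stdAddChar (l * k) : ℂ) *
      Th (fun b => if rs b = k then 1 else 0) s (x / (x ^ 2 + y ^ 2) / 5)
        (y / (x ^ 2 + y ^ 2) / 5) := by
    rw [Finset.mul_sum]
    refine Finset.sum_congr rfl fun k _ => ?_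
    rw [h3 k]
    ring
  rw [h4, h1, h0]
  have h5 : (((2 * (l.val : ℤ) : ℤ) : ZMod 5)) = 2 * l := by
    push_cast
    rw [ZMod.natCast_zmod_val]
  unfold thk
  rw [h5, ← Th_eq, ← mul_assoc, ← mul_assoc, ← Complex.ofReal_mul, ← Complex.ofReal_mul]
  congr 2
  rw [Real.sqrt_div hy.le]
  have : √(x ^ 2 + y ^ 2) ≠ 0 := by positivity
  field_simp
  rw [hy']

theorem zmod5_id : ∀ k l : ZMod 5, -(l * k) = 2 * k * (2 * l) := by decide

theorem lawS (hP : Poisson2) : LawS := by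
  intro k s z
  have h1 : ∑ l : ZMod 5, (ZMod.stdAddChar (-(l * k)) : ℂ) *
      ∑ j : ZMod 5, (ZMod.stdAddChar (l * j) : ℂ) * thk j s (ModularGroup.S • z) =
      5 * thk k s (ModularGroup.S • z) := by
    calc ∑ l : ZMod 5, (ZMod.stdAddChar (-(l * k)) : ℂ) *
          ∑ j : ZMod 5, (ZMod.stdAddChar (l * j) : ℂ) * thk j s (ModularGroup.S • z)
        = ∑ l : ZMod 5, ∑ j : ZMod 5,
            (ZMod.stdAddChar (l * (j - k)) : ℂ) * thk j s (ModularGroup.S • z) := by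
          refine Finset.sum_congr rfl fun l _ => ?_
          rw [Finset.mul_sum]
          refine Finset.sum_congr rfl fun j _ => ?_
          rw [← mul_assoc, ← AddChar.map_add_eq_mul]
          congr 3
          ring
      _ = ∑ j : ZMod 5, (∑ l : ZMod 5, (ZMod.stdAddChar (l * (j - k)) : ℂ)) *
            thk j s (ModularGroup.S • z) := by
          rw [Finset.sum_comm]
          refine Finset.sum_congr rfl fun j _ => ?_
          rw [Finset.sum_mul]
      _ = _ := by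
          rw [Finset.sum_eq_single k]
          · rw [AddChar.sum_mulShift _ (ZMod.isPrimitive_stdAddChar 5), if_pos (sub_self k)]
            simp
          · intro j _ hj
            rw [AddChar.sum_mulShift _ (ZMod.isPrimitive_stdAddChar 5),
              if_neg (sub_ne_zero.2 hj)]
            simp
          · intro h
            exact absurd (Finset.mem_univ _) h
  have h2 : ∑ l : ZMod 5, (ZMod.stdAddChar (-(l * k)) : ℂ) *
      ∑ j : ZMod 5, (ZMod.stdAddChar (l * j) : ℂ) * thk j s (ModularGroup.S • z) =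
      ((√5 : ℝ) : ℂ) * ∑ l : ZMod 5, (ZMod.stdAddChar (2 * k * l) : ℂ) * thk l s z := by
    rw [Finset.mul_sum]
    refine Fintype.sum_bijective (fun l : ZMod 5 => 2 * l) (by decide) _ _ fun l => ?_
    rw [dualk hP l s z]
    rw [zmod5_id k l]
    ring
  have h3 : 5 * thk k s (ModularGroup.S • z) =
      ((√5 : ℝ) : ℂ) * ∑ l : ZMod 5, (ZMod.stdAddChar (2 * k * l) : ℂ) * thk l s z := by
    rw [← h1, h2]
  have h4 : ((√5 : ℝ) : ℂ) ^ 2 = 5 := by
    rw [← Complex.ofReal_pow, Real.sq_sqrt (by norm_num)]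
    norm_num
  have h5 : ((√5 : ℝ) : ℂ) ≠ 0 := by
    intro h
    rw [h] at h4
    norm_num at h4
  push_cast
  rw [one_div, eq_inv_mul_iff_mul_eq₀ h5]
  apply mul_left_cancel₀ h5
  rw [← h3, ← h4]
  ring

end Pool.Agent.TH796.J693
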